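import Mathlib

/-!
# MP_418a80_an, compact normal subgroups: module extension of an operator (Lemma X)
-/

set_option autoImplicit false
set_option linter.unusedVariables false
set_option linter.unusedSectionVars false

open Topology Filter

namespace Pool.Agent.AbCoc

universe u v w w'

/-- the iterated Cauchy-Schwarz inequality -/
theorem le_of_sq_chain (t : ℕ → ℝ) (b C M : ℝ) (ht : ∀ n, 0 ≤ t n) (hb : 0 ≤ b) (hM : 0 ≤ M)
    (h1 : ∀ n, t n ^ 2 ≤ t (n + 1) * b) (h2 : ∀ n, t n ≤ C * M ^ (2 ^ n)) : t 0 ≤ M * b := by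
  rcases eq_or_lt_of_le hb with hb0 | hb0
  · have h := h1 0
    rw [← hb0, mul_zero] at h
    rw [← hb0, mul_zero]
    nlinarith [ht 0]
  -- `(t 0 / b) ^ (2 ^ n) ≤ t n / b`
  have h3 : ∀ n, (t 0 / b) ^ (2 ^ n) ≤ t n / b := by
    intro n
    induction n with
    | zero => simp
    | succ n ih =>
      have h4 : (t 0 / b) ^ (2 ^ (n + 1)) = ((t 0 / b) ^ (2 ^ n)) ^ 2 := by
        rw [← pow_mul, pow_succ]
      rw [h4]
      refine (pow_le_pow_left₀ (by have := ht 0; positivity) ih 2).trans ?_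
      rw [div_pow, div_le_div_iff₀ (by positivity) hb0]
      have := h1 n
      nlinarith
  by_contra hcon
  push Not at hcon
  rcases eq_or_lt_of_le hM with hM0 | hM0
  · have h := h2 0
    rw [← hM0] at h
    have h5 : (0 : ℝ) ^ (2 ^ 0) = 0 := by norm_num
    rw [h5, mul_zero] at h
    rw [← hM0, zero_mul] at hcon
    linarith
  · have h5 : 1 < t 0 / (M * b) := by
      rw [lt_div_iff₀ (by positivity)]
      linarith
    have h6 : ∀ n, (t 0 / (M * b)) ^ (2 ^ n) ≤ C / b := by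
      intro n
      have h7 := (h3 n).trans (div_le_div_of_nonneg_right (h2 n) hb)
      have h8 : t 0 / (M * b) = (t 0 / b) / M := by
        rw [div_div, mul_comm]
      rw [h8, div_pow, div_le_iff₀ (by positivity)]
      calc (t 0 / b) ^ (2 ^ n) ≤ C * M ^ (2 ^ n) / b := h7
        _ = C / b * M ^ (2 ^ n) := by ring
    have h9 : Tendsto (fun n : ℕ => (t 0 / (M * b)) ^ (2 ^ n)) atTop atTop :=
      (tendsto_pow_atTop_atTop_of_one_lt h5).comp
        (tendsto_pow_atTop_atTop_of_one_lt (by norm_num : 1 < 2))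
    obtain ⟨n, hn⟩ := (h9.eventually (eventually_gt_atTop (C / b))).exists
    exact absurd (h6 n) (not_le.2 hn)

section
variable {H0 : Type u} [NormedAddCommGroup H0] [InnerProductSpace ℂ H0] [CompleteSpace H0]
variable {H : Type v} [NormedAddCommGroup H] [InnerProductSpace ℂ H] [CompleteSpace H]

/-- the vectors `c (J x)` -/
def genV (J : H0 →L[ℂ] H) (C : Set (H →L[ℂ] H)) : Set H := {z | ∃ c ∈ C, ∃ x, z = c (J x)}

theorem mem_genV {J : H0 →L[ℂ] H} {C : Set (H →L[ℂ] H)} {c : H →L[ℂ] H} (hc : c ∈ C) (x : H0) :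
    c (J x) ∈ genV J C := ⟨c, hc, x, rfl⟩

/-- two operators which agree on the generators and on the vectors orthogonal to them -/
theorem eq_of_genV (D : Set H) (X Y : H →L[ℂ] H) (h1 : ∀ z ∈ D, X z = Y z)
    (h2 : ∀ z, (∀ y ∈ D, inner ℂ y z = 0) → X z = Y z) : X = Y := by
  ext1 z
  let E : Submodule ℂ H := (Submodule.span ℂ D).topologicalClosure
  have : IsClosed (E : Set H) := Submodule.isClosed_topologicalClosure _
  have : CompleteSpace E := this.completeSpace_coe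
  have h3 : ∀ y ∈ E, X y = Y y := by
    intro y hy
    have h4 : (Submodule.span ℂ D).topologicalClosure ≤ LinearMap.ker ((X - Y : H →L[ℂ] H) : H →ₗ[ℂ] H) := by
      refine Submodule.topologicalClosure_minimal _ ?_ ?_
      · rw [Submodule.span_le]
        intro w hw
        have := h1 w hw
        simp [this]
      · exact ContinuousLinearMap.isClosed_ker (X - Y)
    have h5 := h4 hy
    rw [LinearMap.mem_ker] at h5
    have h6 : X y - Y y = 0 := h5
    exact sub_eq_zero.1 h6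
  obtain ⟨y, hy, w, hw, rfl⟩ := E.exists_add_mem_mem_orthogonal z
  rw [map_add, map_add, h3 y hy, h2 w]
  intro v hv
  exact (Submodule.mem_orthogonal E w).1 hw v
    (Submodule.le_topologicalClosure _ (Submodule.subset_span hv))

/-- the compression `J* c J` -/
noncomputable def cj (J : H0 →L[ℂ] H) (c : H →L[ℂ] H) : H0 →L[ℂ] H0 :=
  (ContinuousLinearMap.adjoint J).comp (c.comp J)

theorem cj_inner (J : H0 →L[ℂ] H) (c d : H →L[ℂ] H) (x y : H0) :
    inner ℂ (c (J x)) (d (J y)) = inner ℂ (cj J (star d * c) x) y := by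
  unfold cj
  rw [ContinuousLinearMap.comp_apply, ContinuousLinearMap.adjoint_inner_left,
    ContinuousLinearMap.comp_apply, mul_apply_eq_comp,
    ContinuousLinearMap.star_eq_adjoint, ContinuousLinearMap.adjoint_inner_left]

theorem cj_star (J : H0 →L[ℂ] H) (c : H →L[ℂ] H) : cj J (star c) = star (cj J c) := by
  unfold cj
  rw [ContinuousLinearMap.star_eq_adjoint, ContinuousLinearMap.star_eq_adjoint,
    ContinuousLinearMap.adjoint_comp, ContinuousLinearMap.adjoint_comp,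
    ContinuousLinearMap.adjoint_adjoint, ContinuousLinearMap.comp_assoc]

/-- `c (J (Q x))` summed -/
noncomputable def gsum (J : H0 →L[ℂ] H) (C : Set (H →L[ℂ] H)) (Q : H0 →L[ℂ] H0) :
    ((C × H0) →₀ ℂ) →ₗ[ℂ] H :=
  Finsupp.linearCombination ℂ (fun p : C × H0 => (p.1 : H →L[ℂ] H) (J (Q p.2)))

theorem gsum_apply (J : H0 →L[ℂ] H) (C : Set (H →L[ℂ] H)) (Q : H0 →L[ℂ] H0)
    (x : (C × H0) →₀ ℂ) :
    gsum J C Q x = ∑ p ∈ x.support, x p • (p.1 : H →L[ℂ] H) (J (Q p.2)) := by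
  unfold gsum
  rw [Finsupp.linearCombination_apply]
  rfl

theorem gsum_inner (J : H0 →L[ℂ] H) (C : Set (H →L[ℂ] H))
    (hmul : ∀ a ∈ C, ∀ b ∈ C, a * b ∈ C) (hst : ∀ a ∈ C, star a ∈ C) (Q Q1 Q2 : H0 →L[ℂ] H0)
    (hQ : ∀ c ∈ C, Commute Q (cj J c)) (x y : (C × H0) →₀ ℂ) :
    inner ℂ (gsum J C (Q * Q1) x) (gsum J C Q2 y)
      = inner ℂ (gsum J C Q1 x) (gsum J C (star Q * Q2) y) := by
  rw [gsum_apply, gsum_apply, gsum_apply, gsum_apply]
  rw [sum_inner, sum_inner]
  refine Finset.sum_congr rfl fun p _ => ?_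
  rw [inner_sum, inner_sum]
  refine Finset.sum_congr rfl fun q _ => ?_
  rw [inner_smul_left, inner_smul_left, inner_smul_right, inner_smul_right, cj_inner, cj_inner]
  congr 2
  have h := hQ (star (q.1 : H →L[ℂ] H) * (p.1 : H →L[ℂ] H)) (hmul _ (hst _ q.1.2) _ p.1.2)
  have h2 : cj J (star (q.1 : H →L[ℂ] H) * (p.1 : H →L[ℂ] H)) ((Q * Q1) p.2)
      = Q (cj J (star (q.1 : H →L[ℂ] H) * (p.1 : H →L[ℂ] H)) (Q1 p.2)) := by
    have := congrArg (fun Z : H0 →L[ℂ] H0 => Z (Q1 p.2)) h.eq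
    exact this.symm
  rw [h2]
  have h3 : (star Q * Q2) q.2 = ContinuousLinearMap.adjoint Q (Q2 q.2) := rfl
  rw [h3, ContinuousLinearMap.adjoint_inner_right]

theorem gsum_le (J : H0 →L[ℂ] H) (C : Set (H →L[ℂ] H)) (x : (C × H0) →₀ ℂ) :
    ∃ B : ℝ, 0 ≤ B ∧ ∀ Q : H0 →L[ℂ] H0, ‖gsum J C Q x‖ ≤ B * ‖Q‖ := by
  refine ⟨∑ p ∈ x.support, ‖x p‖ * (‖(p.1 : H →L[ℂ] H)‖ * (‖J‖ * ‖p.2‖)),
    Finset.sum_nonneg fun p _ => by positivity, fun Q => ?_⟩
  rw [gsum_apply, Finset.sum_mul]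
  refine (norm_sum_le _ _).trans (Finset.sum_le_sum fun p _ => ?_)
  rw [norm_smul, mul_assoc]
  refine mul_le_mul_of_nonneg_left ?_ (norm_nonneg _)
  refine ((p.1 : H →L[ℂ] H).le_opNorm _).trans ?_
  rw [mul_assoc]
  refine mul_le_mul_of_nonneg_left ?_ (norm_nonneg _)
  refine (J.le_opNorm _).trans ?_
  rw [mul_assoc]
  refine mul_le_mul_of_nonneg_left ?_ (norm_nonneg _)
  rw [mul_comm]
  exact Q.le_opNorm _

/-- the boundedness -/
theorem gsum_bound (J : H0 →L[ℂ] H) (C : Set (H →L[ℂ] H))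
    (hmul : ∀ a ∈ C, ∀ b ∈ C, a * b ∈ C) (hst : ∀ a ∈ C, star a ∈ C) (R : H0 →L[ℂ] H0)
    (hR : ∀ c ∈ C, Commute R (cj J c)) (x : (C × H0) →₀ ℂ) :
    ‖gsum J C R x‖ ≤ ‖R‖ * ‖gsum J C 1 x‖ := by
  have hRs : ∀ c ∈ C, Commute (star R) (cj J c) := by
    intro c hc
    have h := (hR (star c) (hst c hc)).star_star
    rwa [cj_star, star_star] at h
  obtain ⟨P, hP⟩ : ∃ P : H0 →L[ℂ] H0, P = star R * R := ⟨_, rfl⟩
  have hPs : star P = P := by rw [hP, star_mul, star_star]
  have hPc : ∀ (k : ℕ), ∀ c ∈ C, Commute (P ^ k) (cj J c) := by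
    intro k c hc
    rw [hP]
    exact ((hRs c hc).mul_left (hR c hc)).pow_left k
  have hPsk : ∀ k : ℕ, star (P ^ k) = P ^ k := by
    intro k
    rw [star_pow, hPs]
  have hPn : ‖P‖ = ‖R‖ * ‖R‖ := by rw [hP, CStarRing.norm_star_mul_self]
  obtain ⟨B, hB, hB2⟩ := gsum_le J C x
  have key : ‖gsum J C P x‖ ≤ ‖P‖ * ‖gsum J C 1 x‖ := by
    have h := le_of_sq_chain (fun n => ‖gsum J C (P ^ (2 ^ n)) x‖) ‖gsum J C 1 x‖ B ‖P‖
      (fun n => norm_nonneg _) (norm_nonneg _) (norm_nonneg _) (fun n => ?_) (fun n => ?_)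
    · simpa using h
    · have h1 : (‖gsum J C (P ^ (2 ^ n)) x‖ ^ 2 : ℝ)
          = ‖inner ℂ (gsum J C (P ^ (2 ^ n)) x) (gsum J C (P ^ (2 ^ n)) x)‖ := by
        rw [inner_self_eq_norm_sq_to_K]
        norm_cast
        rw [abs_of_nonneg (by positivity)]
      have h2 := gsum_inner J C hmul hst (P ^ (2 ^ n)) (P ^ (2 ^ n)) 1 (hPc _) x x
      rw [hPsk, mul_one, ← pow_add, ← two_mul, ← pow_succ'] at h2
      change ‖gsum J C (P ^ (2 ^ n)) x‖ ^ 2 ≤ _
      rw [h1, ← h2]
      exact norm_inner_le_norm _ _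
    · refine (hB2 _).trans (mul_le_mul_of_nonneg_left ?_ hB)
      exact norm_pow_le' _ (by positivity)
  have h1 : (‖gsum J C R x‖ ^ 2 : ℝ) = ‖inner ℂ (gsum J C R x) (gsum J C R x)‖ := by
    rw [inner_self_eq_norm_sq_to_K]
    norm_cast
    rw [abs_of_nonneg (by positivity)]
  have h2 := gsum_inner J C hmul hst R 1 R hR x x
  rw [mul_one, ← hP] at h2
  have h3 : ‖gsum J C R x‖ ^ 2 ≤ (‖R‖ * ‖gsum J C 1 x‖) ^ 2 := by
    rw [h1, h2]
    refine (norm_inner_le_norm _ _).trans ?_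
    refine (mul_le_mul_of_nonneg_left key (norm_nonneg _)).trans (le_of_eq ?_)
    rw [hPn]
    ring
  exact abs_le_of_sq_le_sq' h3 (by positivity) |>.2

/-- bounded extension from a family of vectors, `0` on the orthogonal complement -/
theorem exists_ext0 {I : Type w} {H' : Type w'} [NormedAddCommGroup H'] [InnerProductSpace ℂ H']
    [CompleteSpace H'] (φ : I → H) (ψ : I → H') (M : ℝ)
    (hb : ∀ a : I →₀ ℂ, ‖Finsupp.linearCombination ℂ ψ a‖
      ≤ M * ‖Finsupp.linearCombination ℂ φ a‖) :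
    ∃ X : H →L[ℂ] H', (∀ i, X (φ i) = ψ i) ∧ ∀ z, (∀ i, inner ℂ (φ i) z = 0) → X z = 0 := by
  let E : Submodule ℂ H := (LinearMap.range (Finsupp.linearCombination ℂ φ)).topologicalClosure
  have hEc : IsClosed (E : Set H) := Submodule.isClosed_topologicalClosure _
  have : CompleteSpace E := hEc.completeSpace_coe
  have hmem : ∀ x, Finsupp.linearCombination ℂ φ x ∈ E := fun x =>
    Submodule.le_topologicalClosure _ (LinearMap.mem_range_self _ x)
  let e : (I →₀ ℂ) →ₗ[ℂ] E := (Finsupp.linearCombination ℂ φ).codRestrict E hmem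
  have hd : DenseRange e := by
    intro z
    rw [Metric.mem_closure_iff]
    intro ε hε
    have hz : (z : H) ∈ closure
      ((LinearMap.range (Finsupp.linearCombination ℂ φ) : Submodule ℂ H) : Set H) := z.2
    obtain ⟨y, ⟨x, hx⟩, hy⟩ := Metric.mem_closure_iff.1 hz ε hε
    refine ⟨e x, ⟨x, rfl⟩, ?_⟩
    rw [Subtype.dist_eq]
    change dist (z : H) (Finsupp.linearCombination ℂ φ x) < ε
    rw [hx]
    exact hy
  have he := fun x => LinearMap.extendOfNorm_eq (f := Finsupp.linearCombination ℂ ψ) (e := e) hd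
    ⟨M, hb⟩ x
  refine ⟨((Finsupp.linearCombination ℂ ψ).extendOfNorm e).comp E.orthogonalProjectionOnto, ?_, ?_⟩
  · intro i
    have h1 : Finsupp.linearCombination ℂ φ (Finsupp.single i 1) = φ i := by
      rw [Finsupp.linearCombination_single, one_smul]
    have h2 : Finsupp.linearCombination ℂ ψ (Finsupp.single i 1) = ψ i := by
      rw [Finsupp.linearCombination_single, one_smul]
    rw [ContinuousLinearMap.comp_apply, ← h2, ← he]
    congr 1
    apply Subtype.ext
    rw [← h1]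
    exact (Submodule.starProjection_eq_self_iff.2 (hmem _))
  · intro z hz
    rw [ContinuousLinearMap.comp_apply]
    have h1 : E.orthogonalProjectionOnto z = 0 := by
      rw [Submodule.orthogonalProjectionOnto_eq_zero_iff]
      rw [Submodule.mem_orthogonal]
      intro y hy
      have h4 : (LinearMap.range (Finsupp.linearCombination ℂ φ)).topologicalClosure
          ≤ LinearMap.ker ((innerSL ℂ z : H →L[ℂ] ℂ) : H →ₗ[ℂ] ℂ) := by
        refine Submodule.topologicalClosure_minimal _ ?_ ?_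
        · rintro w ⟨x, rfl⟩
          rw [LinearMap.mem_ker]
          change inner ℂ z (Finsupp.linearCombination ℂ φ x) = 0
          rw [Finsupp.linearCombination_apply, Finsupp.sum, inner_sum]
          refine Finset.sum_eq_zero fun p _ => ?_
          rw [inner_smul_right, ← inner_conj_symm, hz p, map_zero, mul_zero]
        · exact ContinuousLinearMap.isClosed_ker (innerSL ℂ z)
      have h5 : inner ℂ z y = 0 := h4 hy
      rw [← inner_conj_symm, h5, map_zero]
    rw [h1, map_zero]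

/-- **Lemma X**: extension of an operator commuting with the compressions of `C` -/
theorem exists_ext (J : H0 →L[ℂ] H) (C : Set (H →L[ℂ] H))
    (hmul : ∀ a ∈ C, ∀ b ∈ C, a * b ∈ C) (hst : ∀ a ∈ C, star a ∈ C) (R : H0 →L[ℂ] H0)
    (hR : ∀ c ∈ C, Commute R (cj J c)) :
    ∃ X : H →L[ℂ] H, (∀ c ∈ C, ∀ x, X (c (J x)) = c (J (R x))) ∧
      ∀ z, (∀ y ∈ genV J C, inner ℂ y z = 0) → X z = 0 := by
  obtain ⟨X, h1, h2⟩ := exists_ext0 (fun p : C × H0 => (p.1 : H →L[ℂ] H) (J p.2))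
    (fun p : C × H0 => (p.1 : H →L[ℂ] H) (J (R p.2))) ‖R‖
    (fun a => gsum_bound J C hmul hst R hR a)
  exact ⟨X, fun c hc x => h1 (⟨c, hc⟩, x), fun z hz => h2 z fun p => hz _ (mem_genV p.1.2 p.2)⟩

/-- an operator which commutes with `X` on the generators and preserves them, together with its
adjoint, commutes with `X` -/
theorem ext_comm (D : Set H) (X y : H →L[ℂ] H)
    (hX0 : ∀ z, (∀ w ∈ D, inner ℂ w z = 0) → X z = 0)
    (hy : ∀ z ∈ D, X (y z) = y (X z)) (hy' : ∀ z ∈ D, star y z ∈ D) : X * y = y * X := by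
  refine eq_of_genV D _ _ (fun z hz => hy z hz) fun z hz => ?_
  change X (y z) = y (X z)
  rw [hX0 z hz, map_zero]
  refine hX0 _ fun w hw => ?_
  rw [← ContinuousLinearMap.adjoint_inner_left]
  exact hz _ (hy' w hw)

end

end Pool.Agent.AbCoc
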