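import Pool.Agent.Lib_MP_418a80_cn.CN0
import Pool.Agent.Lib_MP_418a80_nm.NComp
import Pool.Agent.Lib_MP_418a80_un.UF0

/-!
# MP_418a80_an, compact normal subgroups: the projection on the `λ(K₀)`-fixed vectors
-/

set_option autoImplicit false
set_option linter.unusedVariables false
set_option linter.unusedSectionVars false

open MeasureTheory Topology Filter
open scoped ENNReal

namespace Pool.Agent.AbCoc

universe u v w z

section
variable {A : Type u} [CStarAlgebra A] {K : Type v} [NormedAddCommGroup K]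
  [InnerProductSpace ℂ K] [CompleteSpace K]
variable {G : Type w} [Group G] [TopologicalSpace G] [IsTopologicalGroup G]
  [SecondCountableTopology G] [LocallyCompactSpace G] [MeasurableSpace G] [BorelSpace G]
  (μ : Measure G) [μ.IsHaarMeasure] {T : TrAlg A K} (S : TrAct G T)
variable {N : Type z} [Group N] [TopologicalSpace N] (j : N →* G) (hj : Continuous j)

/-- the vectors of `L²(G; K)` fixed by the translations by `j(N)` -/
def fixL (K : Type v) [NormedAddCommGroup K] [InnerProductSpace ℂ K] (j : N →* G) :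
    Submodule ℂ (Lp K 2 μ) where
  carrier := {ζ | ∀ s, (lam μ K).U (j s) ζ = ζ}
  add_mem' := fun h h' s => by rw [map_add, h s, h' s]
  zero_mem' := fun s => map_zero _
  smul_mem' := fun c ζ h s => by rw [map_smul, h s]

theorem mem_fixL {ζ : Lp K 2 μ} : ζ ∈ fixL μ K j ↔ ∀ s, (lam μ K).U (j s) ζ = ζ := Iff.rfl

theorem isClosed_fixL : IsClosed (fixL μ K j : Set (Lp K 2 μ)) := by
  have : (fixL μ K j : Set (Lp K 2 μ)) = ⋂ s, {ζ | (lam μ K).U (j s) ζ = ζ} := by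
    ext ζ
    rw [Set.mem_iInter]
    rfl
  rw [this]
  exact isClosed_iInter fun s => isClosed_eq ((lam μ K).U (j s)).continuous continuous_id

instance completeSpace_fixL : CompleteSpace (fixL μ K j) := (isClosed_fixL μ j).completeSpace_coe

/-- the projection on the fixed vectors -/
noncomputable def eL (K : Type v) [NormedAddCommGroup K] [InnerProductSpace ℂ K]
    [CompleteSpace K] (j : N →* G) : Lp K 2 μ →L[ℂ] Lp K 2 μ := (fixL μ K j).starProjection

theorem eL_mem (ζ : Lp K 2 μ) : eL μ K j ζ ∈ fixL μ K j :=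
  (fixL μ K j).starProjection_apply_mem ζ

theorem eL_fix {ζ : Lp K 2 μ} (hζ : ζ ∈ fixL μ K j) : eL μ K j ζ = ζ :=
  Submodule.starProjection_eq_self_iff.2 hζ

theorem eL_symm (ζ ζ' : Lp K 2 μ) : inner ℂ (eL μ K j ζ) ζ' = inner ℂ ζ (eL μ K j ζ') :=
  Submodule.inner_starProjection_left_eq_right _ ζ ζ'

theorem eL_star : star (eL μ K j) = eL μ K j := by
  rw [ContinuousLinearMap.star_eq_adjoint]
  symm
  rw [ContinuousLinearMap.eq_adjoint_iff]
  exact eL_symm μ j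

theorem eL_idem : eL μ K j * eL μ K j = eL μ K j := by
  ext1 ζ
  exact eL_fix μ j (eL_mem μ j ζ)

/-- an operator preserving the fixed vectors together with its adjoint commutes with `e` -/
theorem eL_comm {X : Lp K 2 μ →L[ℂ] Lp K 2 μ} (hX : ∀ ζ ∈ fixL μ K j, X ζ ∈ fixL μ K j)
    (hX' : ∀ ζ ∈ fixL μ K j, (star X) ζ ∈ fixL μ K j) : X * eL μ K j = eL μ K j * X := by
  have h3 := proj_commute (fixL μ K j) {X, star X} (by
    rintro q (rfl | rfl)
    · exact Or.inr rfl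
    · exact Or.inl (star_star _)) (by
    rintro q (rfl | rfl)
    · exact hX
    · exact hX')
  exact Set.mem_centralizer_iff.1 h3 X (Or.inl rfl)

/-- the projection commutes with the commutant of the crossed product -/
theorem TrAct.eL_comm' {y : Lp K 2 μ →L[ℂ] Lp K 2 μ} (hy : y ∈ Set.centralizer (S.gens μ)) :
    y * eL μ K j = eL μ K j * y := by
  have hXZ : ∀ X : Lp K 2 μ →L[ℂ] Lp K 2 μ, (∀ s, (lam μ K).U s * X = X * (lam μ K).U s) →
      ∀ ζ ∈ fixL μ K j, X ζ ∈ fixL μ K j := by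
    intro X hX ζ hζ s
    have h4 := congrArg (fun L : Lp K 2 μ →L[ℂ] Lp K 2 μ => L ζ) (hX (j s))
    change (lam μ K).U (j s) (X ζ) = X ((lam μ K).U (j s) ζ) at h4
    rw [h4, hζ s]
  rw [Set.mem_centralizer_iff] at hy
  refine eL_comm μ j (hXZ y fun s => hy _ (Or.inr ⟨s, rfl⟩)) (hXZ (star y) fun s => ?_)
  have h4 := congrArg star (hy _ (Or.inr ⟨s⁻¹, rfl⟩))
  rw [star_mul, star_mul, lam_star, inv_inv] at h4
  exact h4.symm

theorem TrAct.eL_mem_NN : eL μ K j ∈ S.NN μ := by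
  change eL μ K j ∈ Set.centralizer (Set.centralizer (S.gens μ))
  rw [Set.mem_centralizer_iff]
  intro y hy
  exact S.eL_comm' μ j hy

/-- `e` commutes with `π(b)`, `b` fixed by `j(N)` -/
theorem TrAct.eL_pi {b : A} (hb : (S.cm j hj).Fixed b) :
    S.pi μ b * eL μ K j = eL μ K j * S.pi μ b := by
  have h3 : ∀ b : A, (S.cm j hj).Fixed b → ∀ ζ ∈ fixL μ K j, S.pi μ b ζ ∈ fixL μ K j := by
    intro b hb ζ hζ s
    have h4 := congrArg (fun L : Lp K 2 μ →L[ℂ] Lp K 2 μ => L ζ) (S.lam_pi μ (j s) b)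
    change (lam μ K).U (j s) (S.pi μ b ζ) = S.pi μ (S.α (j s) b) ((lam μ K).U (j s) ζ) at h4
    have h5 : S.α (j s) b = b := hb s
    rw [h4, h5, hζ s]
  refine eL_comm μ j (h3 b hb) ?_
  rw [← S.pi_star μ]
  exact h3 _ (TrAct.Fixed.star (S.cm j hj) hb)

/-- the compression of `π(a)` by `e` depends only on `E a` -/
theorem TrAct.inner_pi_of_E_zero {a : A} (ha : (S.cm j hj).E a = 0) (ζ ζ' : Lp K 2 μ)
    (hζ : ζ ∈ fixL μ K j) (hζ' : ζ' ∈ fixL μ K j) : inner ℂ (S.pi μ a ζ) ζ' = 0 := by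
  have hinv : ∀ (g : N) (x : A),
      inner ℂ (S.pi μ (S.α (j g) x) ζ) ζ' = inner ℂ (S.pi μ x ζ) ζ' := by
    intro g x
    have h4 := congrArg (fun L : Lp K 2 μ →L[ℂ] Lp K 2 μ => L ζ) (S.lam_pi μ (j g) x)
    change (lam μ K).U (j g) (S.pi μ x ζ) = S.pi μ (S.α (j g) x) ((lam μ K).U (j g) ζ) at h4
    rw [hζ g] at h4
    have h5 : (lam μ K).U (j g)⁻¹ ζ' = ζ' := by
      rw [← map_inv]
      exact hζ' g⁻¹
    rw [← h4, (lam μ K).adj, h5]
  rw [← norm_eq_zero]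
  refine le_antisymm (le_of_forall_pos_le_add fun ε hε => ?_) (norm_nonneg _)
  obtain ⟨δ, hδ, hsm⟩ := S.pi_small μ ‖a‖ ζ (ε / (‖ζ'‖ + 1)) (by positivity)
  have hull := (S.cm j hj).E_hull a
  obtain ⟨F, w, hw0, hw1, hlt⟩ := (S.cm j hj).W.exists_average (T.ι a) (T.ι ((S.cm j hj).E a))
    hull δ hδ
  rw [ha, map_zero, sub_zero] at hlt
  have h5 : T.ι ((S.cm j hj).avg F w a) = ∑ g ∈ F, w g • (S.cm j hj).W.U g (T.ι a) :=
    (S.cm j hj).ι_avg F w a
  rw [← h5] at hlt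
  have h6 := hsm ((S.cm j hj).avg F w a) ((S.cm j hj).norm_avg_le F w hw0 hw1 a) hlt.le
  have h7 : inner ℂ (S.pi μ ((S.cm j hj).avg F w a) ζ) ζ' = inner ℂ (S.pi μ a ζ) ζ' := by
    unfold TrAct.avg
    rw [S.pi_sum μ]
    have h8 : (∑ g ∈ F, S.pi μ (w g • (S.cm j hj).α g a)) ζ
        = ∑ g ∈ F, (w g : ℂ) • S.pi μ (S.α (j g) a) ζ := by
      rw [sum_apply]
      refine Finset.sum_congr rfl fun g _ => ?_
      have h9 : w g • (S.cm j hj).α g a = (w g : ℂ) • S.α (j g) a := rfl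
      rw [h9, S.pi_smul μ]
      rfl
    rw [h8, sum_inner]
    have h10 : ∀ g ∈ F, inner ℂ ((w g : ℂ) • S.pi μ (S.α (j g) a) ζ) ζ'
        = (w g : ℂ) * inner ℂ (S.pi μ a ζ) ζ' := by
      intro g _
      rw [inner_smul_left, Complex.conj_ofReal, hinv g a]
    rw [Finset.sum_congr rfl h10, ← Finset.sum_mul, ← Complex.ofReal_sum, hw1,
      Complex.ofReal_one, one_mul]
  rw [← h7, zero_add]
  refine (norm_inner_le_norm _ _).trans ?_
  rw [le_div_iff₀ (by positivity)] at h6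
  nlinarith [norm_nonneg (S.pi μ ((S.cm j hj).avg F w a) ζ), norm_nonneg ζ']

/-- `e π(a) e = π(E a) e` -/
theorem TrAct.eL_pi_eL (a : A) :
    eL μ K j * S.pi μ a * eL μ K j = S.pi μ ((S.cm j hj).E a) * eL μ K j := by
  have h1 : (S.cm j hj).E (a - (S.cm j hj).E a) = 0 := by
    rw [(S.cm j hj).E_sub, (S.cm j hj).E_of_fixed ((S.cm j hj).E_fixed a), sub_self]
  have h2 : eL μ K j * S.pi μ a * eL μ K j
      = eL μ K j * S.pi μ ((S.cm j hj).E a) * eL μ K j := by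
    ext1 ζ
    change eL μ K j (S.pi μ a (eL μ K j ζ)) = eL μ K j (S.pi μ ((S.cm j hj).E a) (eL μ K j ζ))
    refine ext_inner_right ℂ fun ζ' => ?_
    rw [eL_symm, eL_symm]
    have h3 := S.inner_pi_of_E_zero μ j hj h1 _ _ (eL_mem μ j ζ) (eL_mem μ j ζ')
    rw [S.pi_sub μ] at h3
    change inner ℂ (S.pi μ a (eL μ K j ζ) - S.pi μ ((S.cm j hj).E a) (eL μ K j ζ)) _ = 0 at h3
    rw [inner_sub_left, sub_eq_zero] at h3
    exact h3
  rw [h2, ← S.eL_pi μ j hj ((S.cm j hj).E_fixed a), mul_assoc, eL_idem]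

/-- **F-KEY**: an operator of the crossed product commuting with `π(A^{K₀})` -/
theorem TrAct.fkey (hSO : S.SO μ Set.univ) {Y : Lp K 2 μ →L[ℂ] Lp K 2 μ} (hY : Y ∈ S.NN μ)
    (hYc : ∀ b, (S.cm j hj).Fixed b → Y * S.pi μ b = S.pi μ b * Y) :
    ∃ c : ℂ, eL μ K j * Y * eL μ K j = c • eL μ K j := by
  obtain ⟨e, he⟩ : ∃ e, e = eL μ K j := ⟨_, rfl⟩
  have hes : star e = e := by rw [he, eL_star]
  have hei : e * e = e := by rw [he, eL_idem]
  have hadj : ContinuousLinearMap.adjoint e = e := by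
    rw [← ContinuousLinearMap.star_eq_adjoint, hes]
  have hcj : ∀ a, cj e (S.pi μ a) = S.pi μ ((S.cm j hj).E a) * e := by
    intro a
    rw [he, ← S.eL_pi_eL μ j hj a, ← he]
    unfold cj
    rw [hadj]
    rfl
  have hpe : ∀ b, (S.cm j hj).Fixed b → S.pi μ b * e = e * S.pi μ b := fun b hb => by
    rw [he]
    exact S.eL_pi μ j hj hb
  rw [← he]
  obtain ⟨X, hX1, hX0⟩ := exists_ext e (Set.range (S.pi μ))
    (by
      rintro _ ⟨x, rfl⟩ _ ⟨y, rfl⟩
      exact ⟨x * y, S.pi_mul μ x y⟩)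
    (by
      rintro _ ⟨x, rfl⟩
      exact ⟨star x, S.pi_star μ x⟩) (e * Y * e)
    (by
      rintro _ ⟨a, rfl⟩
      have hb := (S.cm j hj).E_fixed a
      rw [hcj]
      obtain ⟨b, hb'⟩ : ∃ b, b = (S.cm j hj).E a := ⟨_, rfl⟩
      rw [← hb'] at hb ⊢
      change e * Y * e * (S.pi μ b * e) = S.pi μ b * e * (e * Y * e)
      calc e * Y * e * (S.pi μ b * e) = e * Y * e * (e * S.pi μ b) := by rw [hpe b hb]
        _ = e * Y * (e * e) * S.pi μ b := by noncomm_ring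
        _ = e * Y * (e * S.pi μ b) := by rw [hei]; noncomm_ring
        _ = e * (Y * S.pi μ b) * e := by rw [← hpe b hb]; noncomm_ring
        _ = e * S.pi μ b * Y * e := by rw [hYc b hb]; noncomm_ring
        _ = S.pi μ b * (e * e) * Y * e := by rw [← hpe b hb, hei]
        _ = S.pi μ b * e * (e * Y * e) := by noncomm_ring)
  have hcomm : ∀ a, X * S.pi μ a = S.pi μ a * X := by
    intro a
    refine ext_comm (genV e (Set.range (S.pi μ))) X (S.pi μ a) hX0 ?_ ?_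
    · rintro _ ⟨_, ⟨m, rfl⟩, ζ, rfl⟩
      have h1 := hX1 (S.pi μ (a * m)) ⟨a * m, rfl⟩ ζ
      rw [S.pi_mul μ] at h1
      rw [hX1 _ ⟨m, rfl⟩ ζ]
      exact h1
    · rintro _ ⟨_, ⟨m, rfl⟩, ζ, rfl⟩
      refine ⟨S.pi μ (star a * m), ⟨star a * m, rfl⟩, ζ, ?_⟩
      rw [S.pi_mul μ, S.pi_star μ]
      rfl
  have hgenc : ∀ y ∈ Set.centralizer (S.gens μ), star y ∈ Set.centralizer (S.gens μ) := by
    intro y hy
    have h1 : S.gens μ ⊆ S.NN μ := Set.subset_centralizer_centralizer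
    rw [Set.mem_centralizer_iff] at hy ⊢
    rintro _ (⟨x, rfl⟩ | ⟨s, rfl⟩)
    · have h4 := congrArg star (hy _ (Or.inl ⟨star x, rfl⟩))
      rw [star_mul, star_mul, S.pi_star μ, star_star] at h4
      exact h4.symm
    · have h4 := congrArg star (hy _ (Or.inr ⟨s⁻¹, rfl⟩))
      rw [star_mul, star_mul, lam_star, inv_inv] at h4
      exact h4.symm
  have hpy : ∀ y ∈ Set.centralizer (S.gens μ), ∀ m, S.pi μ m * y = y * S.pi μ m := fun y hy m =>
    Set.mem_centralizer_iff.1 hy _ (Or.inl ⟨m, rfl⟩)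
  have hey : ∀ y ∈ Set.centralizer (S.gens μ), y * e = e * y := fun y hy => by
    rw [he]
    exact S.eL_comm' μ j hy
  have hXN : X ∈ S.NN μ := by
    change X ∈ Set.centralizer (Set.centralizer (S.gens μ))
    rw [Set.mem_centralizer_iff]
    intro y hy
    symm
    refine ext_comm (genV e (Set.range (S.pi μ))) X y hX0 ?_ ?_
    · rintro _ ⟨_, ⟨m, rfl⟩, ζ, rfl⟩
      have hYy : y * Y = Y * y := Set.mem_centralizer_iff.1 hY y hy
      have h1 : y (S.pi μ m (e ζ)) = S.pi μ m (e (y ζ)) := by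
        have h2 : y * S.pi μ m * e = S.pi μ m * e * y := by
          rw [← hpy y hy, mul_assoc, hey y hy, mul_assoc]
        exact congrArg (fun L : Lp K 2 μ →L[ℂ] Lp K 2 μ => L ζ) h2
      rw [h1, hX1 _ ⟨m, rfl⟩, hX1 _ ⟨m, rfl⟩]
      have h3 : S.pi μ m * (e * (e * Y * e)) * y = y * (S.pi μ m * (e * (e * Y * e))) := by
        calc S.pi μ m * (e * (e * Y * e)) * y = S.pi μ m * e * e * Y * (e * y) := by noncomm_ring
          _ = S.pi μ m * e * e * (Y * y) * e := by rw [← hey y hy]; noncomm_ring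
          _ = S.pi μ m * e * (e * y) * Y * e := by rw [← hYy]; noncomm_ring
          _ = S.pi μ m * (e * (e * y)) * Y * e := by noncomm_ring
          _ = S.pi μ m * (y * e * e) * Y * e := by
              rw [← hey y hy, ← mul_assoc e y e, ← hey y hy]
          _ = (S.pi μ m * y) * e * e * Y * e := by noncomm_ring
          _ = y * (S.pi μ m * (e * (e * Y * e))) := by rw [hpy y hy]; noncomm_ring
      exact congrArg (fun L : Lp K 2 μ →L[ℂ] Lp K 2 μ => L ζ) h3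
    · rintro _ ⟨_, ⟨m, rfl⟩, ζ, rfl⟩
      refine ⟨S.pi μ m, ⟨m, rfl⟩, star y ζ, ?_⟩
      have h2 : star y * S.pi μ m * e = S.pi μ m * e * star y := by
        rw [← hpy _ (hgenc y hy), mul_assoc, hey _ (hgenc y hy), mul_assoc]
      exact congrArg (fun L : Lp K 2 μ →L[ℂ] Lp K 2 μ => L ζ) h2
  obtain ⟨c, hc⟩ := hSO X hXN fun a _ => hcomm a
  refine ⟨c, ?_⟩
  ext1 ζ
  have h1 := hX1 (S.pi μ 1) ⟨1, rfl⟩ ζ
  rw [S.pi_one μ, hc] at h1
  have h2 : e (e ζ) = e ζ := congrArg (fun L : Lp K 2 μ →L[ℂ] Lp K 2 μ => L ζ) hei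
  change c • e ζ = e (e (Y (e ζ))) at h1
  have h3 : e (e (Y (e ζ))) = e (Y (e ζ)) :=
    congrArg (fun L : Lp K 2 μ →L[ℂ] Lp K 2 μ => L (Y (e ζ))) hei
  rw [h3] at h1
  exact h1.symm

end

end Pool.Agent.AbCoc
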