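import Pool.Agent.Lib_MP_418a80_on.OnDefs

/-!
# MP_418a80_an, compact normal subgroups: the fixed point algebra of a normal subgroup and the
action of the quotient
-/

set_option autoImplicit false
set_option linter.unusedVariables false
set_option linter.unusedSectionVars false

open MeasureTheory Topology Filter
open scoped ENNReal

namespace Pool.Agent.AbCoc

universe u v w z

section
variable {A : Type u} [CStarAlgebra A] {K : Type v} [NormedAddCommGroup K]
  [InnerProductSpace ℂ K] [CompleteSpace K]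
variable {G : Type w} [Group G] [TopologicalSpace G] {T : TrAlg A K} (S : TrAct G T)
  (N : Subgroup G)

theorem TrAct.sub_fixed_iff (a : A) : (S.sub N).Fixed a ↔ ∀ k ∈ N, S.α k a = a :=
  ⟨fun h k hk => h ⟨k, hk⟩, fun h k => h k k.2⟩

theorem TrAct.sub_fixedVec_iff (ξ : K) : (S.sub N).FixedVec ξ ↔ ∀ k ∈ N, S.U.U k ξ = ξ := by
  have h0 : ∀ k : N, (S.sub N).U.U k = S.U.U k := fun k => S.cm_U _ _ k
  constructor
  · intro h k hk
    have := h ⟨k, hk⟩
    rwa [h0] at this
  · intro h k
    rw [h0]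
    exact h k k.2

/-- the fixed point algebra -/
def TrAct.fixA : StarSubalgebra ℂ A where
  carrier := {a | (S.sub N).Fixed a}
  mul_mem' := fun ha hb => TrAct.Fixed.mul (S.sub N) ha hb
  add_mem' := fun ha hb => TrAct.Fixed.add (S.sub N) ha hb
  algebraMap_mem' := fun r g => AlgHomClass.commutes _ r
  star_mem' := fun ha => TrAct.Fixed.star (S.sub N) ha

theorem TrAct.mem_fixA {a : A} : a ∈ S.fixA N ↔ (S.sub N).Fixed a := Iff.rfl

instance TrAct.isClosed_fixA : IsClosed (S.fixA N : Set A) := by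
  have h : (S.fixA N : Set A) = ⋂ k : N, {a | (S.sub N).α k a = a} := by
    ext a
    rw [Set.mem_iInter]
    rfl
  rw [h]
  refine isClosed_iInter fun k => isClosed_eq ?_ continuous_id
  have h1 : LipschitzWith 1 ((S.sub N).α k) := by
    refine LipschitzWith.of_dist_le_mul fun x y => ?_
    rw [dist_eq_norm, dist_eq_norm, ← map_sub, NNReal.coe_one, one_mul]
    exact (S.sub N).norm_le k _
  exact h1.continuous

/-- the fixed vectors -/
def TrAct.fixK : Submodule ℂ K where
  carrier := {ξ | (S.sub N).FixedVec ξ}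
  add_mem' := fun ha hb g => by rw [map_add, ha g, hb g]
  zero_mem' := fun g => map_zero _
  smul_mem' := fun c ξ h g => by rw [map_smul, h g]

theorem TrAct.mem_fixK {ξ : K} : ξ ∈ S.fixK N ↔ (S.sub N).FixedVec ξ := Iff.rfl

theorem TrAct.isClosed_fixK : IsClosed (S.fixK N : Set K) := by
  have h : (S.fixK N : Set K) = ⋂ k : N, {ξ | (S.sub N).U.U k ξ = ξ} := by
    ext a
    rw [Set.mem_iInter]
    rfl
  rw [h]
  exact isClosed_iInter fun k => isClosed_eq ((S.sub N).U.U k).continuous continuous_id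

instance TrAct.completeSpace_fixK : CompleteSpace (S.fixK N) :=
  (S.isClosed_fixK N).completeSpace_coe

/-- the inclusion of the fixed point algebra into the fixed vectors -/
noncomputable def TrAct.fixι : (S.fixA N) →L[ℂ] (S.fixK N) :=
  (T.ι.comp (S.fixA N).toSubalgebra.toSubmodule.subtypeL).codRestrict (S.fixK N)
    (fun a => (S.sub N).fixedVec_ι.2 a.2)

theorem TrAct.fixι_coe (a : S.fixA N) : ((S.fixι N a : S.fixK N) : K) = T.ι (a : A) := rfl

theorem TrAct.fix_inner (x y : S.fixK N) : inner ℂ x y = inner ℂ (x : K) (y : K) := rfl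

/-- the fixed point algebra as a tracial algebra -/
noncomputable def TrAct.fixT : TrAlg (S.fixA N) (S.fixK N) where
  ι := S.fixι N
  inj := by
    intro a b h
    apply Subtype.ext
    apply T.inj
    exact congrArg (fun x : S.fixK N => (x : K)) h
  dense := by
    intro ξ
    rw [Metric.mem_closure_iff]
    intro ε hε
    obtain ⟨a, ha⟩ := T.dense.exists_dist_lt (ξ : K) hε
    have hE := (S.sub N).E_fixed a
    refine ⟨S.fixι N ⟨(S.sub N).E a, hE⟩, ⟨_, rfl⟩, ?_⟩
    rw [Subtype.dist_eq, S.fixι_coe]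
    change dist (ξ : K) (T.ι ((S.sub N).E a)) < ε
    rw [dist_eq_norm] at ha ⊢
    obtain ⟨ζ, hζ⟩ : ∃ ζ, ζ = (ξ : K) - T.ι ((S.sub N).E a) := ⟨_, rfl⟩
    have hf : (S.sub N).FixedVec ζ := by
      intro g
      rw [hζ, map_sub, ξ.2 g, (S.sub N).fixedVec_of_fixed hE g]
    have h1 : inner ℂ ζ ζ = inner ℂ ζ ((ξ : K) - T.ι a) := by
      rw [inner_sub_right, ← (S.sub N).inner_E a ζ hf, ← inner_sub_right, ← hζ]
    have h2 : ‖ζ‖ ^ 2 ≤ ‖ζ‖ * ‖(ξ : K) - T.ι a‖ := by
      calc ‖ζ‖ ^ 2 = ‖(inner ℂ ζ ζ : ℂ)‖ := by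
            rw [inner_self_eq_norm_sq_to_K]
            norm_cast
            rw [abs_of_nonneg (by positivity)]
        _ = ‖(inner ℂ ζ ((ξ : K) - T.ι a) : ℂ)‖ := by rw [h1]
        _ ≤ _ := norm_inner_le_norm _ _
    rw [← hζ]
    by_contra hcon
    push Not at hcon
    have h3 : 0 < ‖ζ‖ := hε.trans_le hcon
    nlinarith
  norm_one := by
    change ‖T.ι ((1 : S.fixA N) : A)‖ = 1
    exact T.norm_one
  left := fun a b c => T.left a b c
  tr := fun a b => T.tr a b
  mul_le := fun a b => T.mul_le a b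
  complete := by
    intro C x hx hc
    have h1 : CauchySeq fun n => T.ι (x n : A) := by
      rw [Metric.cauchySeq_iff] at hc ⊢
      exact hc
    obtain ⟨y, hy⟩ := T.complete C (fun n => (x n : A)) hx h1
    have hyf : (S.sub N).Fixed y := by
      refine (S.sub N).fixedVec_ι.1 fun g => ?_
      have h2 : Tendsto (fun n => (S.sub N).U.U g (T.ι (x n : A))) atTop
          (𝓝 ((S.sub N).U.U g (T.ι y))) :=
        (((S.sub N).U.U g).continuous.tendsto _).comp hy
      have h3 : (fun n => (S.sub N).U.U g (T.ι (x n : A))) = fun n => T.ι (x n : A) := by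
        funext n
        exact (S.sub N).fixedVec_of_fixed (x n).2 g
      rw [h3] at h2
      exact tendsto_nhds_unique h2 hy
    refine ⟨⟨y, hyf⟩, ?_⟩
    rw [tendsto_subtype_rng]
    exact hy

theorem TrAct.fixT_norm (a : S.fixA N) : ‖(S.fixT N).ι a‖ = ‖T.ι (a : A)‖ := rfl

variable [N.Normal]

theorem TrAct.fixA_α (g : G) {a : A} (ha : a ∈ S.fixA N) : S.α g a ∈ S.fixA N := by
  rw [S.mem_fixA, S.sub_fixed_iff] at ha ⊢
  intro k hk
  have h1 : g⁻¹ * k * g ∈ N := by
    have := (inferInstance : N.Normal).conj_mem k hk g⁻¹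
    rwa [inv_inv] at this
  have h2 : k * g = g * (g⁻¹ * k * g) := by group
  rw [← S.mul, h2, S.mul, ha _ h1]

/-- the restriction of `α_g` -/
noncomputable def TrAct.resα (g : G) : S.fixA N →⋆ₐ[ℂ] S.fixA N :=
  ((S.α g).comp (S.fixA N).subtype).codRestrict (S.fixA N) fun a => S.fixA_α N g a.2

theorem TrAct.resα_coe (g : G) (a : S.fixA N) : ((S.resα N g a : S.fixA N) : A) = S.α g a := rfl

theorem TrAct.resα_congr {g g' : G} (h : (g : G ⧸ N) = g') : S.resα N g = S.resα N g' := by
  refine StarAlgHom.ext fun a => Subtype.ext ?_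
  rw [S.resα_coe, S.resα_coe]
  have h1 : g⁻¹ * g' ∈ N := QuotientGroup.eq.1 h
  have h2 : g' = g * (g⁻¹ * g') := by group
  rw [h2, S.mul, (S.sub_fixed_iff N _).1 a.2 _ h1]

variable [IsTopologicalGroup G]

/-- the action of the quotient on the fixed point algebra -/
noncomputable def TrAct.fixAct : TrAct (G ⧸ N) (S.fixT N) where
  α := fun q => S.resα N q.out
  one := fun a => by
    have h1 : S.resα N (1 : G ⧸ N).out = S.resα N 1 :=
      S.resα_congr N (by rw [QuotientGroup.out_eq']; rfl)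
    rw [h1]
    apply Subtype.ext
    rw [S.resα_coe, S.one]
  mul := fun q r a => by
    have h1 : S.resα N (q * r).out = S.resα N (q.out * r.out) :=
      S.resα_congr N (by
        rw [QuotientGroup.out_eq', QuotientGroup.mk_mul, QuotientGroup.out_eq',
          QuotientGroup.out_eq'])
    rw [h1]
    apply Subtype.ext
    rw [S.resα_coe, S.mul, S.resα_coe, S.resα_coe]
  norm_map := fun q a => S.norm_map _ _
  cont := fun a => by
    rw [(QuotientGroup.isQuotientMap_mk (N := N)).continuous_iff]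
    have h1 : (fun q : G ⧸ N => (S.fixT N).ι (S.resα N q.out a)) ∘ (QuotientGroup.mk : G → G ⧸ N)
        = fun g => (S.fixT N).ι (S.resα N g a) := by
      funext g
      change (S.fixT N).ι (S.resα N (g : G ⧸ N).out a) = _
      rw [S.resα_congr N (QuotientGroup.out_eq' (g : G ⧸ N))]
    rw [h1]
    exact (S.cont (a : A)).subtype_mk _

theorem TrAct.fixAct_mk (g : G) (a : S.fixA N) :
    (((S.fixAct N).α (g : G ⧸ N) a : S.fixA N) : A) = S.α g a := by
  change ((S.resα N (g : G ⧸ N).out a : S.fixA N) : A) = _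
  rw [S.resα_congr N (QuotientGroup.out_eq' (g : G ⧸ N)), S.resα_coe]

theorem TrAct.fixAct_U (g : G) (ξ : S.fixK N) :
    (((S.fixAct N).U.U (g : G ⧸ N) ξ : S.fixK N) : K) = S.U.U g ξ := by
  refine (S.fixT N).dense.induction_on
    (p := fun ξ => (((S.fixAct N).U.U (g : G ⧸ N) ξ : S.fixK N) : K) = S.U.U g ξ) ξ ?_ ?_
  · exact isClosed_eq (continuous_subtype_val.comp ((S.fixAct N).U.U _).continuous)
      ((S.U.U g).continuous.comp continuous_subtype_val)
  · intro a
    rw [(S.fixAct N).U_ι]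
    change T.ι (((S.fixAct N).α (g : G ⧸ N) a : S.fixA N) : A) = S.U.U g (T.ι (a : A))
    rw [S.fixAct_mk, S.U_ι]

theorem TrAct.fixAct_fixed (a : S.fixA N) : (S.fixAct N).Fixed a ↔ S.Fixed (a : A) := by
  constructor
  · intro h g
    have := congrArg (fun x : S.fixA N => (x : A)) (h (g : G ⧸ N))
    rwa [S.fixAct_mk] at this
  · intro h q
    obtain ⟨g, rfl⟩ := QuotientGroup.mk_surjective q
    apply Subtype.ext
    rw [S.fixAct_mk]
    exact h g

/-- the conditional expectations agree -/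
theorem TrAct.E_fixAct (a : S.fixA N) : (((S.fixAct N).E a : S.fixA N) : A) = S.E (a : A) := by
  refine S.eq_E_of _ _ ((S.fixAct_fixed N _).1 ((S.fixAct N).E_fixed a)) fun p hp => ?_
  have hp' : (S.sub N).Fixed p := fun k => hp k
  have := (S.fixAct N).inner_E a ((S.fixT N).ι ⟨p, hp'⟩)
    ((S.fixAct N).fixedVec_of_fixed ((S.fixAct_fixed N ⟨p, hp'⟩).2 hp))
  exact this

theorem TrAct.E_sub_E (a : A) : S.E ((S.sub N).E a) = S.E a := by
  refine (S.eq_E_of _ _ (S.E_fixed _) fun p hp => ?_)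
  rw [S.inner_E _ _ (S.fixedVec_of_fixed hp)]
  have hp' : (S.sub N).Fixed p := fun k => hp k
  exact (S.sub N).inner_E a _ ((S.sub N).fixedVec_of_fixed hp')

/-- KEY passes from the fixed point algebra of a normal subgroup -/
theorem TrAct.key_of_fixAct (h : (S.fixAct N).Key) : S.Key := by
  intro J _ x hx hx0 C hC ε hε
  have hE : ∀ j, (S.sub N).Fixed ((S.sub N).E (x j)) := fun j => (S.sub N).E_fixed _
  obtain ⟨u, hu1, hu2, huC, huE⟩ := h J (fun j => ⟨(S.sub N).E (x j), hE j⟩)
    (fun j => by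
      rw [isSelfAdjoint_iff]
      apply Subtype.ext
      exact ((S.sub N).E_isSelfAdjoint (hx j)).star_eq)
    (fun j => by
      have h1 := (S.sub N).τ_E (x j)
      rw [hx0] at h1
      exact h1)
    ((QuotientGroup.mk : G → G ⧸ N) '' C) (hC.image QuotientGroup.continuous_mk) ε hε
  refine ⟨(u : A), congrArg (fun x : S.fixA N => (x : A)) hu1,
    congrArg (fun x : S.fixA N => (x : A)) hu2, fun s hs => ?_, fun j => ?_⟩
  · have h1 := huC _ ⟨s, hs, rfl⟩
    rw [S.fixT_norm] at h1
    have h2 : (((S.fixAct N).α (s : G ⧸ N) u - u : S.fixA N) : A) = S.α s u - u := by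
      change (((S.fixAct N).α (s : G ⧸ N) u : S.fixA N) : A) - (u : A) = _
      rw [S.fixAct_mk]
    rwa [h2] at h1
  · have h1 := huE j
    rw [S.fixT_norm, S.E_fixAct] at h1
    have h2 : S.E ((u : A) * x j * star (u : A))
        = S.E ((u : A) * (S.sub N).E (x j) * star (u : A)) := by
      rw [← S.E_sub_E N, (S.sub N).E_mul_right (TrAct.Fixed.star (S.sub N) u.2),
        (S.sub N).E_mul_left u.2]
    rw [h2]
    exact h1

end

end Pool.Agent.AbCoc
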