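import Pool.Agent.Lib_MP_418a80_cn.CN1
import Pool.Agent.Lib_MP_418a80_cn.CN2

/-!
# MP_418a80_an, compact normal subgroups: strict outerness of the quotient on the fixed point algebra
-/

set_option autoImplicit false
set_option linter.unusedVariables false
set_option linter.unusedSectionVars false

open MeasureTheory Topology Filter
open scoped ENNReal Pointwise

namespace Pool.Agent.AbCoc

universe u v w z

section grp
variable {G : Type w} [Group G] [TopologicalSpace G] [IsTopologicalGroup G]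
  [LocallyCompactSpace G] (N : Subgroup G)

/-- compact sets of the quotient lift -/
theorem exists_lift_compact {D : Set (G ⧸ N)} (hD : IsCompact D) :
    ∃ D' : Set G, IsCompact D' ∧ D ⊆ (QuotientGroup.mk : G → G ⧸ N) '' D' := by
  have h1 : ∀ g : G, ∃ C : Set G, IsCompact C ∧ C ∈ 𝓝 g := fun g => exists_compact_mem_nhds g
  choose C hC hCg using h1
  obtain ⟨t, ht, hsub⟩ := hD.elim_nhds_subcover
    (fun q => (QuotientGroup.mk : G → G ⧸ N) '' (C q.out)) (fun q hq => by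
      have h2 := (QuotientGroup.isOpenMap_coe (N := N)).image_mem_nhds (hCg q.out)
      rwa [QuotientGroup.out_eq'] at h2)
  refine ⟨⋃ q ∈ t, C q.out, t.finite_toSet.isCompact_biUnion fun q _ => hC _, ?_⟩
  intro q hq
  obtain ⟨r, hr, g, hg, rfl⟩ : ∃ r ∈ t, ∃ g ∈ C r.out, (g : G ⧸ N) = q := by
    obtain ⟨r, hr, h⟩ := Set.mem_iUnion₂.1 (hsub hq)
    exact ⟨r, hr, h⟩
  exact ⟨g, Set.mem_iUnion₂.2 ⟨r, hr, hg⟩, rfl⟩

variable {N} in
/-- the quotient map by a compact subgroup is proper -/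
theorem isCompact_preimage_mk (hN : IsCompact (N : Set G)) {D : Set (G ⧸ N)} (hD : IsCompact D)
    (hDc : IsClosed D) : IsCompact ((QuotientGroup.mk : G → G ⧸ N) ⁻¹' D) := by
  obtain ⟨D', hD', hDD⟩ := exists_lift_compact N hD
  refine (hD'.mul hN).of_isClosed_subset (hDc.preimage QuotientGroup.continuous_mk) ?_
  intro g hg
  obtain ⟨h, hh, he⟩ := hDD hg
  refine Set.mem_mul.2 ⟨h, hh, h⁻¹ * g, QuotientGroup.eq.1 he, by group⟩

variable {N} in
theorem tendsto_mk_cocompact [T2Space G] [N.Normal] (hN : IsCompact (N : Set G)) :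
    Tendsto (QuotientGroup.mk' N) (cocompact G) (cocompact (G ⧸ N)) := by
  have : IsClosed (N : Set G) := hN.isClosed
  rw [(hasBasis_cocompact).tendsto_iff hasBasis_cocompact]
  intro D hD
  exact ⟨_, isCompact_preimage_mk hN hD hD.isClosed, fun g hg h => hg h⟩

variable {N} in
theorem isHaarMeasure_map_mk [T2Space G] [N.Normal] (hN : IsCompact (N : Set G))
    [MeasurableSpace G] [BorelSpace G] (μ : Measure G) [μ.IsHaarMeasure]
    [MeasurableSpace (G ⧸ N)] [BorelSpace (G ⧸ N)] :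
    (Measure.map (QuotientGroup.mk' N) μ).IsHaarMeasure :=
  Measure.isHaarMeasure_map μ (QuotientGroup.mk' N) QuotientGroup.continuous_mk
    (QuotientGroup.mk'_surjective N) (tendsto_mk_cocompact hN)

end grp

section
variable {A : Type u} [CStarAlgebra A] {K : Type v} [NormedAddCommGroup K]
  [InnerProductSpace ℂ K] [CompleteSpace K]
variable {G : Type w} [Group G] [TopologicalSpace G] [IsTopologicalGroup G]
  [SecondCountableTopology G] [LocallyCompactSpace G] [MeasurableSpace G] [BorelSpace G]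
  (μ : Measure G) [μ.IsHaarMeasure] {T : TrAlg A K} (S : TrAct G T)
variable (N : Subgroup G) [N.Normal] [MeasurableSpace (G ⧸ N)] [BorelSpace (G ⧸ N)]
  (ν : Measure (G ⧸ N)) [ν.IsHaarMeasure] (hmp : MeasurePreserving (QuotientGroup.mk : G → G ⧸ N) μ ν)

/-- `(J ξ)(g) = ξ(g N)` -/
noncomputable def TrAct.JN : Lp (S.fixK N) 2 ν →L[ℂ] Lp K 2 μ :=
  (oneT μ (S.fixK N).subtypeL).comp
    (Lp.compMeasurePreservingₗᵢ ℂ (QuotientGroup.mk : G → G ⧸ N) hmp).toContinuousLinearMap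

theorem TrAct.JN_ae (ξ : Lp (S.fixK N) 2 ν) :
    S.JN μ N ν hmp ξ =ᵐ[μ] fun g => ((ξ (g : G ⧸ N) : S.fixK N) : K) := by
  have h1 := oneT_ae μ (S.fixK N).subtypeL (Lp.compMeasurePreserving QuotientGroup.mk hmp ξ)
  filter_upwards [h1, Lp.coeFn_compMeasurePreserving ξ hmp] with g h1 h2
  refine h1.trans ?_
  rw [h2]
  rfl

theorem TrAct.JN_inner (ξ η : Lp (S.fixK N) 2 ν) :
    inner ℂ (S.JN μ N ν hmp ξ) (S.JN μ N ν hmp η) = inner ℂ ξ η := by
  have h1 := (Lp.compMeasurePreservingₗᵢ ℂ (QuotientGroup.mk : G → G ⧸ N) hmp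
    (E := S.fixK N) (p := 2)).inner_map_map ξ η
  rw [← h1, L2.inner_def, L2.inner_def]
  refine integral_congr_ae ?_
  filter_upwards [S.JN_ae μ N ν hmp ξ, S.JN_ae μ N ν hmp η, Lp.coeFn_compMeasurePreserving ξ hmp,
    Lp.coeFn_compMeasurePreserving η hmp] with g h1 h2 h3 h4
  rw [h1, h2]
  have h5 : ((Lp.compMeasurePreservingₗᵢ ℂ (QuotientGroup.mk : G → G ⧸ N) hmp ξ : Lp _ 2 μ) :
      G → S.fixK N) g = ξ (g : G ⧸ N) := h3
  have h6 : ((Lp.compMeasurePreservingₗᵢ ℂ (QuotientGroup.mk : G → G ⧸ N) hmp η : Lp _ 2 μ) :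
      G → S.fixK N) g = η (g : G ⧸ N) := h4
  rw [h5, h6]
  rfl

theorem TrAct.JN_inj {ξ η : Lp (S.fixK N) 2 ν} (h : S.JN μ N ν hmp ξ = S.JN μ N ν hmp η) :
    ξ = η := by
  have h1 := S.JN_inner μ N ν hmp (ξ - η) (ξ - η)
  rw [map_sub, h, sub_self, inner_zero_left] at h1
  exact sub_eq_zero.1 (inner_self_eq_zero.1 h1.symm)

theorem TrAct.fix_Lm (b : S.fixA N) (ξ : S.fixK N) :
    (((S.fixT N).Lm b ξ : S.fixK N) : K) = T.Lm (b : A) ξ := by
  refine (S.fixT N).dense.induction_on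
    (p := fun ξ => (((S.fixT N).Lm b ξ : S.fixK N) : K) = T.Lm (b : A) ξ) ξ ?_ ?_
  · exact isClosed_eq (continuous_subtype_val.comp ((S.fixT N).Lm b).continuous)
      ((T.Lm (b : A)).continuous.comp continuous_subtype_val)
  · intro a
    rw [(S.fixT N).Lm_ι]
    change T.ι ((b * a : S.fixA N) : A) = T.Lm (b : A) (T.ι (a : A))
    rw [T.Lm_ι]
    rfl

theorem TrAct.JN_pi (a : S.fixA N) (ξ : Lp (S.fixK N) 2 ν) :
    S.JN μ N ν hmp ((S.fixAct N).pi ν a ξ) = S.pi μ (a : A) (S.JN μ N ν hmp ξ) := by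
  apply Lp.ext
  filter_upwards [S.JN_ae μ N ν hmp ((S.fixAct N).pi ν a ξ), S.JN_ae μ N ν hmp ξ,
    S.pi_ae μ (a : A) (S.JN μ N ν hmp ξ),
    hmp.quasiMeasurePreserving.ae ((S.fixAct N).pi_ae ν a ξ)] with g h1 h2 h3 h4
  rw [h1, h3, h2, h4, S.fix_Lm]
  congr 2
  rw [← QuotientGroup.mk_inv, S.fixAct_mk]

theorem TrAct.JN_lam (g : G) (ξ : Lp (S.fixK N) 2 ν) :
    S.JN μ N ν hmp ((lam ν (S.fixK N)).U (g : G ⧸ N) ξ)
      = (lam μ K).U g (S.JN μ N ν hmp ξ) := by
  apply Lp.ext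
  filter_upwards [S.JN_ae μ N ν hmp ((lam ν (S.fixK N)).U (g : G ⧸ N) ξ),
    hmp.quasiMeasurePreserving.ae (lam_ae ν (g : G ⧸ N) ξ),
    lam_ae μ g (S.JN μ N ν hmp ξ), ae_translate μ g⁻¹ (S.JN_ae μ N ν hmp ξ)] with h h1 h2 h3 h4
  rw [h1, h3, h4, h2]
  rfl

theorem TrAct.JN_mem_fixL (ξ : Lp (S.fixK N) 2 ν) : S.JN μ N ν hmp ξ ∈ fixL μ K N.subtype := by
  intro k
  rw [← S.JN_lam μ N ν hmp]
  have h1 : ((N.subtype k : G) : G ⧸ N) = 1 := (QuotientGroup.eq_one_iff _).2 k.2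
  rw [h1, (lam ν (S.fixK N)).one]
  rfl

theorem TrAct.cgens_star {y : Lp K 2 μ →L[ℂ] Lp K 2 μ} (hy : y ∈ Set.centralizer (S.gens μ)) :
    star y ∈ Set.centralizer (S.gens μ) := by
  rw [Set.mem_centralizer_iff] at hy ⊢
  rintro _ (⟨x, rfl⟩ | ⟨s, rfl⟩)
  · have h4 := congrArg star (hy _ (Or.inl ⟨star x, rfl⟩))
    rw [star_mul, star_mul, S.pi_star μ, star_star] at h4
    exact h4.symm
  · have h4 := congrArg star (hy _ (Or.inr ⟨s⁻¹, rfl⟩))
    rw [star_mul, star_mul, lam_star, inv_inv] at h4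
    exact h4.symm

include hmp in
/-- **the quotient acts strictly outerly on the fixed point algebra** -/
theorem TrAct.SO_fixAct (hSO : S.SO μ Set.univ) : (S.fixAct N).SO ν Set.univ := by
  intro n hn hnc
  obtain ⟨J, hJ⟩ : ∃ J, J = S.JN μ N ν hmp := ⟨_, rfl⟩
  have hJpi : ∀ (a : S.fixA N) ξ, S.pi μ (a : A) (J ξ) = J ((S.fixAct N).pi ν a ξ) :=
    fun a ξ => by rw [hJ, S.JN_pi μ N ν hmp]
  have hJlam : ∀ (g : G) ξ, (lam μ K).U g (J ξ) = J ((lam ν (S.fixK N)).U (g : G ⧸ N) ξ) :=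
    fun g ξ => by rw [hJ, S.JN_lam μ N ν hmp]
  -- the compressions of the commutant commute with `n`
  have hcj : ∀ c ∈ Set.centralizer (S.gens μ), Commute n (cj J c) := by
    intro c hc
    have h1 : cj J c ∈ Set.centralizer ((S.fixAct N).gens ν) := by
      rw [Set.mem_centralizer_iff] at hc ⊢
      rintro _ (⟨a, rfl⟩ | ⟨q, rfl⟩)
      · ext1 x
        refine ext_inner_right ℂ fun y => ?_
        change inner ℂ ((S.fixAct N).pi ν a (cj J c x)) y
          = inner ℂ (cj J c ((S.fixAct N).pi ν a x)) y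
        have e1 : inner ℂ ((S.fixAct N).pi ν a (cj J c x)) y
            = inner ℂ (cj J c x) ((S.fixAct N).pi ν (star a) y) := by
          rw [(S.fixAct N).pi_star ν, ContinuousLinearMap.star_eq_adjoint,
            ContinuousLinearMap.adjoint_inner_right]
        have e2 : ∀ x y, inner ℂ (cj J c x) y = inner ℂ (c (J x)) (J y) := by
          intro x y
          unfold cj
          rw [ContinuousLinearMap.comp_apply, ContinuousLinearMap.adjoint_inner_left,
            ContinuousLinearMap.comp_apply]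
        rw [e1, e2, e2, ← hJpi, ← hJpi]
        have e3 : c (S.pi μ (a : A) (J x)) = S.pi μ (a : A) (c (J x)) :=
          congrArg (fun L : Lp K 2 μ →L[ℂ] Lp K 2 μ => L (J x)) (hc _ (Or.inl ⟨(a : A), rfl⟩)).symm
        rw [e3]
        have e4 : ((star a : S.fixA N) : A) = star (a : A) := rfl
        rw [e4, S.pi_star μ, ContinuousLinearMap.star_eq_adjoint,
          ContinuousLinearMap.adjoint_inner_right]
      · obtain ⟨g, rfl⟩ := QuotientGroup.mk_surjective q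
        ext1 x
        refine ext_inner_right ℂ fun y => ?_
        change inner ℂ ((lam ν (S.fixK N)).U (g : G ⧸ N) (cj J c x)) y
          = inner ℂ (cj J c ((lam ν (S.fixK N)).U (g : G ⧸ N) x)) y
        have e2 : ∀ x y, inner ℂ (cj J c x) y = inner ℂ (c (J x)) (J y) := by
          intro x y
          unfold cj
          rw [ContinuousLinearMap.comp_apply, ContinuousLinearMap.adjoint_inner_left,
            ContinuousLinearMap.comp_apply]
        rw [(lam ν (S.fixK N)).adj, ← QuotientGroup.mk_inv, e2, e2, ← hJlam, ← hJlam]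
        have e3 : c ((lam μ K).U g (J x)) = (lam μ K).U g (c (J x)) :=
          congrArg (fun L : Lp K 2 μ →L[ℂ] Lp K 2 μ => L (J x)) (hc _ (Or.inr ⟨g, rfl⟩)).symm
        rw [e3, (lam μ K).adj]
    rw [Set.mem_centralizer_iff] at hn
    exact (hn _ h1).symm
  have h1C : (1 : Lp K 2 μ →L[ℂ] Lp K 2 μ) ∈ Set.centralizer (S.gens μ) := Set.one_mem_centralizer
  obtain ⟨X, hX1, hX0⟩ := exists_ext J (Set.centralizer (S.gens μ))
    (fun a ha b hb => Set.mul_mem_centralizer ha hb) (fun a ha => S.cgens_star μ ha) n hcj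
  have hXN : X ∈ S.NN μ := by
    change X ∈ Set.centralizer (Set.centralizer (S.gens μ))
    rw [Set.mem_centralizer_iff]
    intro y hy
    symm
    refine ext_comm (genV J (Set.centralizer (S.gens μ))) X y hX0 ?_ ?_
    · rintro _ ⟨c, hc, x, rfl⟩
      rw [hX1 c hc]
      exact hX1 (y * c) (Set.mul_mem_centralizer hy hc) x
    · rintro _ ⟨c, hc, x, rfl⟩
      exact ⟨star y * c, Set.mul_mem_centralizer (S.cgens_star μ hy) hc, x, rfl⟩
  have hXc : ∀ b, (S.sub N).Fixed b → X * S.pi μ b = S.pi μ b * X := by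
    intro b hb
    have hpc : ∀ (a : A) c, c ∈ Set.centralizer (S.gens μ) → ∀ ζ,
        S.pi μ a (c ζ) = c (S.pi μ a ζ) := fun a c hc ζ =>
      congrArg (fun L : Lp K 2 μ →L[ℂ] Lp K 2 μ => L ζ)
        (Set.mem_centralizer_iff.1 hc _ (Or.inl ⟨a, rfl⟩))
    refine ext_comm (genV J (Set.centralizer (S.gens μ))) X (S.pi μ b) hX0 ?_ ?_
    · rintro _ ⟨c, hc, x, rfl⟩
      have hJ' := hJpi ⟨b, hb⟩
      change ∀ ξ, S.pi μ b (J ξ) = J ((S.fixAct N).pi ν ⟨b, hb⟩ ξ) at hJ'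
      rw [hX1 c hc, hpc b c hc, hpc b c hc, hJ', hJ', hX1 c hc]
      have h2 := congrArg (fun L : Lp (S.fixK N) 2 ν →L[ℂ] Lp (S.fixK N) 2 ν => L x)
        (hnc ⟨b, hb⟩ trivial)
      change n ((S.fixAct N).pi ν ⟨b, hb⟩ x) = (S.fixAct N).pi ν ⟨b, hb⟩ (n x) at h2
      rw [h2]
    · rintro _ ⟨c, hc, x, rfl⟩
      have hb' : (S.sub N).Fixed (star b) := TrAct.Fixed.star (S.sub N) hb
      have hJ' := hJpi ⟨star b, hb'⟩
      change ∀ ξ, S.pi μ (star b) (J ξ) = J ((S.fixAct N).pi ν ⟨star b, hb'⟩ ξ) at hJ'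
      rw [← S.pi_star μ, hpc _ c hc, hJ']
      exact mem_genV hc _
  obtain ⟨c, hc⟩ := S.fkey μ N.subtype continuous_subtype_val hSO hXN hXc
  refine ⟨c, ?_⟩
  ext1 x
  apply S.JN_inj μ N ν hmp
  rw [← hJ]
  have hfix : ∀ y, eL μ K N.subtype (J y) = J y := fun y => eL_fix μ _ (by
    rw [hJ]
    exact S.JN_mem_fixL μ N ν hmp y)
  have h2 := congrArg (fun L : Lp K 2 μ →L[ℂ] Lp K 2 μ => L (J x)) hc
  change eL μ K N.subtype (X (eL μ K N.subtype (J x))) = c • eL μ K N.subtype (J x) at h2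
  have h3 := hX1 1 h1C x
  change X (J x) = J (n x) at h3
  rw [hfix, h3, hfix] at h2
  rw [h2]
  change _ = J (c • x)
  rw [map_smul]

end

end Pool.Agent.AbCoc
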