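import Pool.Agent.Lib_MP_418a80_cn.CN3
import Pool.Agent.Lib_MP_418a80_t3.T3Class

/-!
# MP_418a80_an, compact normal subgroups: `KeyAll (G ⧸ N)` gives `KeyAll G`, `N` compact normal
-/

set_option autoImplicit false
set_option linter.unusedVariables false
set_option linter.unusedSectionVars false

open MeasureTheory Topology Filter
open scoped ENNReal Pointwise

namespace Pool.Agent.AbCoc

universe u v w z

section reiter
variable {G : Type w} [Group G] [TopologicalSpace G] [IsTopologicalGroup G] [T2Space G]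
  [SecondCountableTopology G] [LocallyCompactSpace G] [MeasurableSpace G] [BorelSpace G]
  (μ : Measure G) [μ.IsHaarMeasure] (N : Subgroup G) [N.Normal] (hN : IsCompact (N : Set G))
  [MeasurableSpace (G ⧸ N)] [BorelSpace (G ⧸ N)]

include hN in
/-- Reiter's condition passes to the quotient by a compact normal subgroup -/
theorem reiter_quot (hR : Reiter μ) : Reiter (Measure.map (QuotientGroup.mk : G → G ⧸ N) μ) := by
  borelize ↥N
  have hNc : IsClosed (N : Set G) := hN.isClosed
  have : CompactSpace N := isCompact_iff_compactSpace.1 hN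
  have : SecondCountableTopology N :=
    inferInstanceAs (SecondCountableTopology ((N : Set G) : Set G))
  have : IsClosed (N : Set G) := hNc
  -- the Haar probability measure of `N`
  obtain ⟨m, hm, hmp⟩ : ∃ m : Measure N, m.IsHaarMeasure ∧ IsProbabilityMeasure m := by
    refine ⟨Measure.haarMeasure ⊤, inferInstance, ⟨?_⟩⟩
    have h1 := Measure.haarMeasure_self (K₀ := (⊤ : TopologicalSpace.PositiveCompacts N))
    exact h1
  have hmeas : Measurable (QuotientGroup.mk : G → G ⧸ N) := QuotientGroup.continuous_mk.measurable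
  intro C1 hC1 κ hκ
  obtain ⟨C1', hC1', hsub⟩ := exists_lift_compact N hC1
  obtain ⟨F, hF, hFs, hF0, hF1, hFd⟩ := hR (N ∪ C1' * N) (hN.union (hC1'.mul hN)) (κ / 2)
    (by positivity)
  -- the averaged function
  obtain ⟨H, hH⟩ : ∃ H : G → ℝ, H = fun g => ∫ k : N, F ((k : G)⁻¹ * g) ∂m := ⟨_, rfl⟩
  have hjoint : Continuous fun p : G × N => F ((p.2 : G)⁻¹ * p.1) :=
    hF.comp (((continuous_subtype_val.comp continuous_snd).inv).mul continuous_fst)
  have hHc : Continuous H := by
    rw [hH]
    have h1 := continuous_parametric_integral_of_continuous (μ := m)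
      (f := fun (g : G) (k : N) => F ((k : G)⁻¹ * g)) hjoint (isCompact_univ)
    simpa using h1
  have hHinv : ∀ (n : N) (g : G), H ((n : G) * g) = H g := by
    intro n g
    rw [hH]
    have h1 := integral_mul_left_eq_self (μ := m) (fun k : N => F ((k : G)⁻¹ * g)) n⁻¹
    change ∫ k : N, F ((k : G)⁻¹ * ((n : G) * g)) ∂m = ∫ k : N, F ((k : G)⁻¹ * g) ∂m
    rw [← h1]
    refine integral_congr_ae (Eventually.of_forall fun k => ?_)
    simp only [Subgroup.coe_mul, Subgroup.coe_inv, mul_inv_rev, inv_inv, mul_assoc]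
  have hHinv' : ∀ g g' : G, (g : G ⧸ N) = g' → H g = H g' := by
    intro g g' h
    have h1 : g⁻¹ * g' ∈ N := QuotientGroup.eq.1 h
    have h2 : g * (g⁻¹ * g') * g⁻¹ ∈ N := (inferInstance : N.Normal).conj_mem _ h1 g
    have h3 := hHinv ⟨_, h2⟩ g
    rw [← h3]
    congr 1
    change g * (g⁻¹ * g') * g⁻¹ * g = g'
    group
  obtain ⟨F', hF'⟩ : ∃ F' : G ⧸ N → ℝ, F' = fun q => H q.out := ⟨_, rfl⟩
  have hF'm : ∀ g : G, F' (g : G ⧸ N) = H g := by
    intro g
    rw [hF']
    exact hHinv' _ _ (QuotientGroup.out_eq' _)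
  have hF'c : Continuous F' := by
    rw [(QuotientGroup.isQuotientMap_mk (N := N)).continuous_iff]
    have h1 : F' ∘ (QuotientGroup.mk : G → G ⧸ N) = H := funext hF'm
    rw [h1]
    exact hHc
  -- near-invariance of `F`
  have hFk : ∀ s : G, s ∈ (N : Set G) ∪ C1' * N → ∫ t, |F (s⁻¹ * t) - F t| ∂μ ≤ κ / 2 := hFd
  -- key estimate
  have hest : ∀ s : G, (∀ k : N, s * k ∈ (N : Set G) ∪ C1' * N) →
      Integrable (fun g => H (s⁻¹ * g) - F g) μ ∧
        ∫ g, |H (s⁻¹ * g) - F g| ∂μ ≤ κ / 2 := by
    intro s hs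
    have hcf : Continuous fun p : G × N => F ((s * (p.2 : G))⁻¹ * p.1) - F p.1 := by
      refine (hF.comp ?_).sub (hF.comp continuous_fst)
      exact ((continuous_const.mul (continuous_subtype_val.comp continuous_snd)).inv).mul
        continuous_fst
    obtain ⟨B, hB⟩ : ∃ B : Set G, B = ({s} * (N : Set G)) * tsupport F ∪ tsupport F := ⟨_, rfl⟩
    have hBc : IsCompact B := by
      rw [hB]
      exact ((isCompact_singleton.mul hN).mul hFs.isCompact).union hFs.isCompact
    have hzero : ∀ (g : G) (k : N), g ∉ B → F ((s * (k : G))⁻¹ * g) = 0 ∧ F g = 0 := by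
      intro g k hg
      rw [hB, Set.mem_union, not_or] at hg
      refine ⟨?_, image_eq_zero_of_notMem_tsupport hg.2⟩
      refine image_eq_zero_of_notMem_tsupport fun h => hg.1 ?_
      exact Set.mem_mul.2 ⟨s * k, Set.mul_mem_mul rfl k.2, _, h, by group⟩
    have hcs : HasCompactSupport (Function.uncurry fun (g : G) (k : N) =>
        |F ((s * (k : G))⁻¹ * g) - F g|) := by
      refine HasCompactSupport.intro (hBc.prod isCompact_univ) fun p hp => ?_
      have h1 : p.1 ∉ B := fun h => hp ⟨h, trivial⟩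
      obtain ⟨h2, h3⟩ := hzero p.1 p.2 h1
      change |F ((s * (p.2 : G))⁻¹ * p.1) - F p.1| = 0
      rw [h2, h3, sub_zero, abs_zero]
    have hHF : ∀ g, H (s⁻¹ * g) - F g = ∫ k : N, (F ((s * (k : G))⁻¹ * g) - F g) ∂m := by
      intro g
      have h1 : Continuous fun k : N => F ((s * (k : G))⁻¹ * g) :=
        hF.comp (((continuous_const.mul continuous_subtype_val).inv).mul continuous_const)
      rw [integral_sub (h1.integrable_of_hasCompactSupport (HasCompactSupport.of_compactSpace _))
        (integrable_const _), integral_const, probReal_univ, one_smul, hH]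
      congr 1
      refine integral_congr_ae (Eventually.of_forall fun k => ?_)
      simp only [mul_inv_rev, mul_assoc]
    have hHc' : Continuous fun g => H (s⁻¹ * g) - F g :=
      (hHc.comp (continuous_const.mul continuous_id)).sub hF
    have hHcs : HasCompactSupport fun g => H (s⁻¹ * g) - F g := by
      refine HasCompactSupport.intro hBc fun g hg => ?_
      rw [hHF]
      refine (integral_congr_ae (Eventually.of_forall fun k => ?_)).trans (integral_zero N ℝ)
      obtain ⟨h2, h3⟩ := hzero g k hg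
      change F ((s * (k : G))⁻¹ * g) - F g = 0
      rw [h2, h3, sub_zero]
    refine ⟨hHc'.integrable_of_hasCompactSupport hHcs, ?_⟩
    have h1 : ∫ g, |H (s⁻¹ * g) - F g| ∂μ
        ≤ ∫ g, ∫ k : N, |F ((s * (k : G))⁻¹ * g) - F g| ∂m ∂μ := by
      refine integral_mono (hHc'.abs.integrable_of_hasCompactSupport ?_) ?_ fun g => ?_
      · exact hHcs.comp_left (g := fun x : ℝ => |x|) abs_zero
      · have h2 : Continuous fun g : G => ∫ k : N, |F ((s * (k : G))⁻¹ * g) - F g| ∂m := by
          have h3 := continuous_parametric_integral_of_continuous (μ := m)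
            (f := fun (g : G) (k : N) => |F ((s * (k : G))⁻¹ * g) - F g|) hcf.abs (isCompact_univ)
          simpa using h3
        refine h2.integrable_of_hasCompactSupport (HasCompactSupport.intro hBc fun g hg => ?_)
        refine (integral_congr_ae (Eventually.of_forall fun k => ?_)).trans (integral_zero N ℝ)
        obtain ⟨h2, h3⟩ := hzero g k hg
        change |F ((s * (k : G))⁻¹ * g) - F g| = 0
        rw [h2, h3, sub_zero, abs_zero]
      · change |H (s⁻¹ * g) - F g| ≤ _
        rw [hHF]
        exact abs_integral_le_integral_abs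
    refine h1.trans ?_
    rw [integral_integral_swap_of_hasCompactSupport hcf.abs hcs]
    have h2 : ∀ k : N, ∫ g, |F ((s * (k : G))⁻¹ * g) - F g| ∂μ ≤ κ / 2 := fun k => hFk _ (hs k)
    calc ∫ k : N, ∫ g, |F ((s * (k : G))⁻¹ * g) - F g| ∂μ ∂m ≤ ∫ k : N, κ / 2 ∂m := by
          refine integral_mono_of_nonneg (Eventually.of_forall fun k => ?_) (integrable_const _)
            (Eventually.of_forall h2)
          exact integral_nonneg fun g => abs_nonneg _
      _ = κ / 2 := by rw [integral_const, probReal_univ, one_smul]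
  have hmap : ∀ Φ : G ⧸ N → ℝ, Continuous Φ →
      ∫ q, Φ q ∂(Measure.map (QuotientGroup.mk : G → G ⧸ N) μ) = ∫ g, Φ (g : G ⧸ N) ∂μ := by
    intro Φ hΦ
    exact integral_map hmeas.aemeasurable hΦ.aestronglyMeasurable
  refine ⟨F', hF'c, ?_, ?_, ?_, ?_⟩
  · refine HasCompactSupport.intro (hFs.isCompact.image QuotientGroup.continuous_mk) fun q hq => ?_
    obtain ⟨g, rfl⟩ := QuotientGroup.mk_surjective q
    rw [hF'm, hH]
    refine (integral_congr_ae (Eventually.of_forall fun k => ?_)).trans (integral_zero N ℝ)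
    refine image_eq_zero_of_notMem_tsupport fun h => hq ⟨_, h, ?_⟩
    refine QuotientGroup.eq.2 ?_
    have h1 : (((k : G)⁻¹ * g)⁻¹ * g) = g⁻¹ * (k : G) * g := by group
    rw [h1]
    have := (inferInstance : N.Normal).conj_mem (k : G) k.2 g⁻¹
    rwa [inv_inv] at this
  · intro q
    rw [hF', hH]
    exact integral_nonneg fun k => hF0 _
  · rw [hmap _ hF'c]
    have h1 : ∫ g, F' (g : G ⧸ N) ∂μ = ∫ g, ∫ k : N, F ((k : G)⁻¹ * g) ∂m ∂μ := by
      refine integral_congr_ae (Eventually.of_forall fun g => ?_)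
      change F' (g : G ⧸ N) = _
      rw [hF'm, hH]
    have hcs : HasCompactSupport (Function.uncurry fun (g : G) (k : N) => F ((k : G)⁻¹ * g)) := by
      refine HasCompactSupport.intro ((hN.mul hFs.isCompact).prod isCompact_univ) fun p hp => ?_
      change F ((p.2 : G)⁻¹ * p.1) = 0
      refine image_eq_zero_of_notMem_tsupport fun h => hp ⟨?_, trivial⟩
      exact Set.mem_mul.2 ⟨(p.2 : G), p.2.2, _, h, by group⟩
    rw [h1, integral_integral_swap_of_hasCompactSupport hjoint hcs]
    have h2 : ∀ k : N, ∫ g, F ((k : G)⁻¹ * g) ∂μ = 1 := fun k => by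
      rw [integral_mul_left_eq_self (μ := μ) F, hF1]
    simp only [h2]
    rw [integral_const, probReal_univ, one_smul]
  · intro q hq
    obtain ⟨s, hs, rfl⟩ := hsub hq
    have hc : Continuous fun r : G ⧸ N => |F' ((s : G ⧸ N)⁻¹ * r) - F' r| :=
      ((hF'c.comp (continuous_const.mul continuous_id)).sub hF'c).abs
    rw [hmap _ hc]
    obtain ⟨i1, e1⟩ := hest s fun k => Or.inr (Set.mul_mem_mul hs k.2)
    obtain ⟨i2, e2⟩ := hest 1 fun k => Or.inl (by rw [one_mul]; exact k.2)
    have h1 : ∫ g, |F' ((s : G ⧸ N)⁻¹ * (g : G ⧸ N)) - F' (g : G ⧸ N)| ∂μ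
        ≤ ∫ g, (|H (s⁻¹ * g) - F g| + |H (1⁻¹ * g) - F g|) ∂μ := by
      refine integral_mono_of_nonneg (Eventually.of_forall fun g => abs_nonneg _)
        (i1.abs.add i2.abs) (Eventually.of_forall fun g => ?_)
      change |F' ((s : G ⧸ N)⁻¹ * (g : G ⧸ N)) - F' (g : G ⧸ N)|
        ≤ |H (s⁻¹ * g) - F g| + |H (1⁻¹ * g) - F g|
      rw [← QuotientGroup.mk_inv, ← QuotientGroup.mk_mul, hF'm, hF'm, inv_one, one_mul]
      have h2 : H (s⁻¹ * g) - H g = (H (s⁻¹ * g) - F g) - (H g - F g) := by ring
      rw [h2]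
      exact abs_sub _ _
    refine h1.trans ?_
    rw [integral_add i1.abs i2.abs]
    linarith

end reiter

section key
variable {G : Type w} [Group G] [TopologicalSpace G] [IsTopologicalGroup G] [T2Space G]
  [SecondCountableTopology G] [LocallyCompactSpace G]

/-- **`KeyAll` passes from the quotient by a compact normal subgroup** -/
theorem keyAll_of_compact_normal (N : Subgroup G) [N.Normal] (hN : IsCompact (N : Set G))
    (h : KeyAll.{u, v, w} (G ⧸ N)) : KeyAll.{u, v, w} G := by
  refine ⟨fun {_ _ _ _ _ _} μ _ hR A _ K _ _ _ T S hSO => ?_⟩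
  have hNc : IsClosed (N : Set G) := hN.isClosed
  borelize (G ⧸ N)
  have hH : (Measure.map (QuotientGroup.mk : G → G ⧸ N) μ).IsHaarMeasure :=
    isHaarMeasure_map_mk hN μ
  have hmp : MeasurePreserving (QuotientGroup.mk : G → G ⧸ N) μ
      (Measure.map (QuotientGroup.mk : G → G ⧸ N) μ) :=
    ⟨QuotientGroup.continuous_mk.measurable, rfl⟩
  exact S.key_of_fixAct N (h.key _ (reiter_quot μ N hN hR) _ _ (S.fixT N) (S.fixAct N)
    (S.SO_fixAct μ N _ hmp hSO))

end key

end Pool.Agent.AbCoc
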