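import Pool.Agent.Lib_MP_418a80_cn.CN3
import Pool.Agent.Lib_MP_418a80_on.OnDefs

/-!
# MP_418a80_an, [F1]: an inner perturbation of `α_g` fixing the fixed points of a compact subgroup
`K₀` has `g ∈ K₀`
-/

set_option autoImplicit false
set_option linter.unusedVariables false
set_option linter.unusedSectionVars false

open MeasureTheory Topology Filter
open scoped ENNReal Pointwise

namespace Pool.Agent.AbCoc

universe u v w z

section
variable {A : Type u} [CStarAlgebra A] {K : Type v} [NormedAddCommGroup K]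
  [InnerProductSpace ℂ K] [CompleteSpace K]
variable {G : Type w} [Group G] [TopologicalSpace G] {T : TrAlg A K} (S : TrAct G T)

/-- for a compact subgroup `FixU` means that the fixed points are fixed -/
theorem TrAct.fix_of_fixU (N : Subgroup G) {β : A →⋆ₐ[ℂ] A} (h : S.FixU N β) {x : A}
    (hx : (S.sub N).Fixed x) : β x = x := by
  -- unitaries
  have hu : ∀ u : A, star u * u = 1 → u * star u = 1 → (S.sub N).Fixed u → β u = u := by
    intro u hu1 hu2 huf
    have h3 : ‖T.ι (β u - u)‖ ≤ 0 := by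
      refine le_of_forall_pos_le_add fun ε hε => ?_
      obtain ⟨D, κ, hD, hDN, hκ, h4⟩ := h ε hε
      rw [zero_add]
      refine h4 u ⟨hu1, hu2, fun s hs => ?_⟩
      rw [(S.sub_fixed_iff N u).1 huf s (hDN hs), sub_self, map_zero, norm_zero]
      exact hκ.le
    have h4 : T.ι (β u - u) = T.ι 0 := by
      rw [map_zero]
      exact norm_eq_zero.1 (le_antisymm h3 (norm_nonneg _))
    exact sub_eq_zero.1 (T.inj h4)
  have h1 : (⟨x, hx⟩ : S.fixA N) ∈ Submodule.span ℂ (unitary (S.fixA N) : Set (S.fixA N)) := by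
    rw [CStarAlgebra.span_unitary]
    trivial
  have h2 : ∀ y : S.fixA N, y ∈ Submodule.span ℂ (unitary (S.fixA N) : Set (S.fixA N)) →
      β (y : A) = y := by
    intro y hy
    induction hy using Submodule.span_induction with
    | mem u hu' =>
      exact hu u (congrArg (fun x : S.fixA N => (x : A)) hu'.1)
        (congrArg (fun x : S.fixA N => (x : A)) hu'.2) u.2
    | zero => exact map_zero β
    | add a b _ _ ha hb =>
      change β ((a : A) + (b : A)) = (a : A) + (b : A)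
      rw [map_add, ha, hb]
    | smul c a _ ha =>
      change β (c • (a : A)) = c • (a : A)
      rw [map_smul, ha]
  exact h2 _ h1

end

section
variable {A : Type u} [CStarAlgebra A] {K : Type v} [NormedAddCommGroup K]
  [InnerProductSpace ℂ K] [CompleteSpace K]
variable {G : Type w} [Group G] [TopologicalSpace G] [IsTopologicalGroup G]
  [SecondCountableTopology G] [LocallyCompactSpace G] [MeasurableSpace G] [BorelSpace G]
  (μ : Measure G) [μ.IsHaarMeasure] {T : TrAlg A K} (S : TrAct G T)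

/-- two families with the same Gram matrix -/
theorem norm_linearCombination_le_of_gram {I : Type z} {H : Type v} [NormedAddCommGroup H]
    [InnerProductSpace ℂ H] (φ ψ : I → H)
    (h : ∀ i j, inner ℂ (ψ i) (ψ j) = (inner ℂ (φ i) (φ j) : ℂ)) (a : I →₀ ℂ) :
    ‖Finsupp.linearCombination ℂ ψ a‖ ≤ 1 * ‖Finsupp.linearCombination ℂ φ a‖ := by
  have h1 : (inner ℂ (Finsupp.linearCombination ℂ ψ a) (Finsupp.linearCombination ℂ ψ a) : ℂ)
      = inner ℂ (Finsupp.linearCombination ℂ φ a) (Finsupp.linearCombination ℂ φ a) := by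
    rw [Finsupp.linearCombination_apply, Finsupp.linearCombination_apply, Finsupp.sum,
      Finsupp.sum, sum_inner, sum_inner]
    refine Finset.sum_congr rfl fun p _ => ?_
    rw [inner_sum, inner_sum]
    refine Finset.sum_congr rfl fun q _ => ?_
    rw [inner_smul_left, inner_smul_left, inner_smul_right, inner_smul_right, h]
  rw [inner_self_eq_norm_sq_to_K, inner_self_eq_norm_sq_to_K] at h1
  have h2 : ‖Finsupp.linearCombination ℂ ψ a‖ ^ 2 = ‖Finsupp.linearCombination ℂ φ a‖ ^ 2 := by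
    exact_mod_cast h1
  rw [one_mul]
  exact ((pow_left_inj₀ (norm_nonneg _) (norm_nonneg _) two_ne_zero).1 h2).le

theorem TrAct.inner_bw {w : A} (h1 : star w * w = 1) (h2 : w * star w = 1) (g : G) (a b : A) :
    inner ℂ (T.ι (S.bw h1 h2 g a)) (T.ι (S.bw h1 h2 g b)) = inner ℂ (T.ι a) (T.ι b) := by
  rw [S.bw_apply, S.bw_apply, T.right, star_star, mul_assoc, h1, mul_one, T.left, ← mul_assoc, h1,
    one_mul, S.inner_map]

/-- the conditional expectation is invariant -/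
theorem TrAct.E_bw (N : Subgroup G) {w : A} (h1 : star w * w = 1) (h2 : w * star w = 1) (g : G)
    (hfix : ∀ x, (S.sub N).Fixed x → S.bw h1 h2 g x = x) (a : A) :
    (S.sub N).E (S.bw h1 h2 g a) = (S.sub N).E a := by
  refine ((S.sub N).eq_E_of _ _ ((S.sub N).E_fixed a) fun p hp => ?_).symm
  rw [(S.sub N).inner_E a _ ((S.sub N).fixedVec_of_fixed hp), ← S.inner_bw h1 h2 g p a,
    hfix p hp]

/-- the compression of `π(a)` depends only on `E a` -/
theorem TrAct.inner_pi_eq (N : Subgroup G) {a b : A} (h : (S.sub N).E a = (S.sub N).E b)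
    (ζ ζ' : Lp K 2 μ) (hζ : ζ ∈ fixL μ K N.subtype) (hζ' : ζ' ∈ fixL μ K N.subtype) :
    inner ℂ (S.pi μ a ζ) ζ' = inner ℂ (S.pi μ b ζ) ζ' := by
  have h1 : (S.sub N).E (a - b) = 0 := by rw [(S.sub N).E_sub, h, sub_self]
  have h3 := S.inner_pi_of_E_zero μ N.subtype continuous_subtype_val h1 _ _ hζ hζ'
  rw [S.pi_sub μ] at h3
  change inner ℂ (S.pi μ a ζ - S.pi μ b ζ) _ = 0 at h3
  rwa [inner_sub_left, sub_eq_zero] at h3

/-- the perturbed translation is a scalar on the `λ(K₀)`-fixed vectors -/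
theorem TrAct.exists_scalar_of_fix (hSO : S.SO μ Set.univ) (N : Subgroup G) {w : A}
    (h1 : star w * w = 1) (h2 : w * star w = 1) (g : G)
    (hfix : ∀ x, (S.sub N).Fixed x → S.bw h1 h2 g x = x) :
    ∃ c : ℂ, ∀ ζ ∈ fixL μ K N.subtype, c • S.pi μ w ((lam μ K).U g ζ) = ζ := by
  obtain ⟨e, he⟩ : ∃ e, e = eL μ K N.subtype := ⟨_, rfl⟩
  obtain ⟨β, hβ⟩ : ∃ β, β = S.bw h1 h2 g := ⟨_, rfl⟩
  have hem : ∀ ζ, e ζ ∈ fixL μ K N.subtype := fun ζ => by rw [he]; exact eL_mem μ _ ζ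
  have hmul : ∀ a b, S.pi μ (a * b) = S.pi μ a * S.pi μ b := S.pi_mul μ
  have hgram0 : ∀ (a b : A) (ζ ζ' : Lp K 2 μ), inner ℂ (S.pi μ a (e ζ)) (S.pi μ b (e ζ'))
      = (inner ℂ (S.pi μ (star b * a) (e ζ)) (e ζ') : ℂ) := by
    intro a b ζ ζ'
    rw [hmul, S.pi_star μ, ContinuousLinearMap.star_eq_adjoint]
    exact (ContinuousLinearMap.adjoint_inner_left _ _ _).symm
  obtain ⟨B, hB1, hB0⟩ := exists_ext0 (fun p : A × Lp K 2 μ => S.pi μ p.1 (e p.2))
    (fun p : A × Lp K 2 μ => S.pi μ (β p.1) (e p.2)) 1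
    (norm_linearCombination_le_of_gram _ _ fun p q => by
      change inner ℂ (S.pi μ (β p.1) (e p.2)) (S.pi μ (β q.1) (e q.2)) = _
      rw [hgram0, hgram0]
      refine S.inner_pi_eq μ N ?_ _ _ (hem _) (hem _)
      rw [← map_star, ← map_mul, hβ]
      exact S.E_bw N h1 h2 g hfix _)
  obtain ⟨Vs, hVs⟩ : ∃ Vs, Vs = (lam μ K).U g⁻¹ * S.pi μ (star w) := ⟨_, rfl⟩
  have hVsN : Vs ∈ S.NN μ := by
    rw [hVs]
    exact Set.mul_mem_centralizer (Set.subset_centralizer_centralizer (Or.inr ⟨g⁻¹, rfl⟩))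
      (Set.subset_centralizer_centralizer (Or.inl ⟨star w, rfl⟩))
  have hVpi : ∀ m, Vs * S.pi μ (β m) = S.pi μ m * Vs := by
    intro m
    rw [hVs, mul_assoc, ← hmul]
    have e1 : star w * β m = S.α g m * star w := by
      rw [hβ, S.bw_apply, ← mul_assoc, ← mul_assoc, h1, one_mul]
    rw [e1, hmul, ← mul_assoc, S.lam_pi μ g⁻¹, S.inv_apply, mul_assoc]
  obtain ⟨D, hD⟩ : ∃ D : Set (Lp K 2 μ), D = {z | ∃ p : A × Lp K 2 μ, S.pi μ p.1 (e p.2) = z} :=
    ⟨_, rfl⟩
  have hX0 : ∀ z, (∀ y ∈ D, inner ℂ y z = 0) → (Vs * B) z = 0 := by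
    intro z hz
    change Vs (B z) = 0
    rw [hB0 z fun p => hz _ (by rw [hD]; exact ⟨p, rfl⟩), map_zero]
  have hX1 : ∀ (m : A) (ζ : Lp K 2 μ), (Vs * B) (S.pi μ m (e ζ)) = S.pi μ m (Vs (e ζ)) := by
    intro m ζ
    change Vs (B (S.pi μ m (e ζ))) = _
    rw [hB1 (m, ζ)]
    exact congrArg (fun L : Lp K 2 μ →L[ℂ] Lp K 2 μ => L (e ζ)) (hVpi m)
  have hcomm : ∀ a, (Vs * B) * S.pi μ a = S.pi μ a * (Vs * B) := by
    intro a
    refine ext_comm D (Vs * B) (S.pi μ a) hX0 ?_ ?_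
    · intro z hz
      rw [hD] at hz
      obtain ⟨p, rfl⟩ := hz
      have h3 := hX1 (a * p.1) p.2
      rw [hmul] at h3
      rw [hX1]
      exact h3
    · intro z hz
      rw [hD] at hz ⊢
      obtain ⟨p, rfl⟩ := hz
      refine ⟨(star a * p.1, p.2), ?_⟩
      change S.pi μ (star a * p.1) (e p.2) = _
      rw [hmul, S.pi_star μ]
      rfl
  have hpy : ∀ y ∈ Set.centralizer (S.gens μ), ∀ m, S.pi μ m * y = y * S.pi μ m := fun y hy m =>
    Set.mem_centralizer_iff.1 hy _ (Or.inl ⟨m, rfl⟩)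
  have hey : ∀ y ∈ Set.centralizer (S.gens μ), y * e = e * y := fun y hy => by
    rw [he]
    exact S.eL_comm' μ _ hy
  have hyp : ∀ y ∈ Set.centralizer (S.gens μ), ∀ (m : A) ζ,
      y (S.pi μ m (e ζ)) = S.pi μ m (e (y ζ)) := by
    intro y hy m ζ
    have h2 : y * S.pi μ m * e = S.pi μ m * e * y := by
      rw [← hpy y hy, mul_assoc, hey y hy, mul_assoc]
    exact congrArg (fun L : Lp K 2 μ →L[ℂ] Lp K 2 μ => L ζ) h2
  have hXN : Vs * B ∈ S.NN μ := by
    change Vs * B ∈ Set.centralizer (Set.centralizer (S.gens μ))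
    rw [Set.mem_centralizer_iff]
    intro y hy
    symm
    refine ext_comm D (Vs * B) y hX0 ?_ ?_
    · intro z hz
      rw [hD] at hz
      obtain ⟨p, rfl⟩ := hz
      rw [hyp y hy, hX1, hX1]
      have hVy : y * Vs = Vs * y := Set.mem_centralizer_iff.1 hVsN y hy
      have h3 : S.pi μ p.1 * (Vs * (e * y)) = y * (S.pi μ p.1 * (Vs * e)) := by
        rw [← hey y hy, ← mul_assoc Vs, ← hVy, ← mul_assoc y, ← hpy y hy]
        noncomm_ring
      exact congrArg (fun L : Lp K 2 μ →L[ℂ] Lp K 2 μ => L p.2) h3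
    · intro z hz
      rw [hD] at hz ⊢
      obtain ⟨p, rfl⟩ := hz
      exact ⟨(p.1, star y p.2), (hyp _ (S.cgens_star μ hy) p.1 p.2).symm⟩
  obtain ⟨c, hc⟩ := hSO _ hXN fun a _ => hcomm a
  refine ⟨c, fun ζ hζ => ?_⟩
  have heζ : e ζ = ζ := by
    rw [he]
    exact eL_fix μ _ hζ
  have h3 := hX1 1 ζ
  rw [S.pi_one μ, hc, heζ] at h3
  change c • ζ = Vs ζ at h3
  rw [← map_smul, ← map_smul, h3, hVs]
  change S.pi μ w ((lam μ K).U g ((lam μ K).U g⁻¹ (S.pi μ (star w) ζ))) = ζ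
  rw [(lam μ K).apply_inv]
  have h4 : S.pi μ w * S.pi μ (star w) = 1 := by rw [← hmul, h2, S.pi_one μ]
  exact congrArg (fun L : Lp K 2 μ →L[ℂ] Lp K 2 μ => L ζ) h4

omit [SecondCountableTopology G] [BorelSpace G] [MeasurableSpace G] in
/-- a small left invariant neighbourhood of a compact subgroup -/
theorem exists_small_inv_nhds [T2Space G] (N : Subgroup G) (hN : IsCompact (N : Set G)) {g : G}
    (hg : g ∉ N) : ∃ W : Set G, IsOpen W ∧ (1 : G) ∈ W ∧ (∀ k ∈ N, ∀ x, k * x ∈ W ↔ x ∈ W) ∧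
      (∀ x ∈ W, g⁻¹ * x ∉ W) ∧ ∃ C, IsCompact C ∧ W ⊆ C := by
  have hgN : IsCompact ((fun x => g * x) '' (N : Set G)) :=
    hN.image (continuous_const.mul continuous_id)
  have hdisj : Disjoint (N : Set G) ((fun x => g * x) '' (N : Set G)) := by
    rw [Set.disjoint_left]
    rintro x hx ⟨y, hy, rfl⟩
    exact hg ((N.mul_mem_cancel_right hy).1 hx)
  obtain ⟨O1, O2, hO1, hO2, hN1, hN2, hd⟩ := SeparatedNhds.of_isCompact_isCompact hN hgN hdisj
  obtain ⟨C, hC, hNC⟩ := exists_compact_superset hN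
  obtain ⟨W0, hW0⟩ : ∃ W0 : Set G, W0 = O1 ∩ (fun x => g * x) ⁻¹' O2 ∩ interior C := ⟨_, rfl⟩
  have hW0o : IsOpen W0 := by
    rw [hW0]
    exact (hO1.inter (hO2.preimage (continuous_const.mul continuous_id))).inter isOpen_interior
  have hNW0 : (N : Set G) ⊆ W0 := by
    intro x hx
    rw [hW0]
    exact ⟨⟨hN1 hx, hN2 ⟨x, hx, rfl⟩⟩, hNC hx⟩
  refine ⟨{x | ∀ k ∈ N, k * x ∈ W0}, ?_, ?_, ?_, ?_, C, hC, ?_⟩
  · have h1 : {x : G | ∀ k ∈ N, k * x ∈ W0}
        = {x : G | ∀ k ∈ (N : Set G), (k, x) ∈ (fun p : G × G => p.1 * p.2) ⁻¹' W0} := rfl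
    rw [h1]
    rw [isOpen_iff_mem_nhds]
    intro x hx
    have h2 : (N : Set G) ×ˢ {x} ⊆ (fun p : G × G => p.1 * p.2) ⁻¹' W0 := by
      rintro ⟨k, y⟩ ⟨hk, hy⟩
      rw [Set.mem_singleton_iff] at hy
      subst hy
      exact hx k hk
    obtain ⟨U, V, hU, hV, hNU, hxV, hUV⟩ := generalized_tube_lemma hN isCompact_singleton
      (hW0o.preimage continuous_mul) h2
    filter_upwards [hV.mem_nhds (hxV rfl)] with y hy k hk
    exact hUV ⟨hNU hk, hy⟩
  · intro k hk
    rw [mul_one]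
    exact hNW0 hk
  · intro k hk x
    constructor
    · intro h l hl
      have h3 := h (l * k⁻¹) (N.mul_mem hl (N.inv_mem hk))
      have h4 : l * k⁻¹ * (k * x) = l * x := by group
      rwa [h4] at h3
    · intro h l hl
      have h3 := h (l * k) (N.mul_mem hl hk)
      rwa [mul_assoc] at h3
  · intro x hx hx'
    have h3 := hx 1 N.one_mem
    have h4 := hx' 1 N.one_mem
    rw [one_mul] at h3 h4
    rw [hW0] at h3 h4
    have h5 : g * (g⁻¹ * x) ∈ O2 := h4.1.2
    rw [mul_inv_cancel_left] at h5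
    exact Set.disjoint_left.1 hd h3.1.1 h5
  · intro x hx
    have h3 := hx 1 N.one_mem
    rw [one_mul, hW0] at h3
    exact interior_subset h3.2

/-- **[F1]** -/
theorem TrAct.mem_of_fix_compact [T2Space G] (hSO : S.SO μ Set.univ) (N : Subgroup G)
    (hN : IsCompact (N : Set G)) {w : A} (h1 : star w * w = 1) (h2 : w * star w = 1) (g : G)
    (hfix : ∀ x, (S.sub N).Fixed x → S.bw h1 h2 g x = x) : g ∈ N := by
  by_contra hg
  obtain ⟨c, hc⟩ := S.exists_scalar_of_fix μ hSO N h1 h2 g hfix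
  obtain ⟨W, hWo, hW1, hWN, hWg, C, hC, hWC⟩ := exists_small_inv_nhds N hN hg
  have hWm : MeasurableSet W := hWo.measurableSet
  have hWf : μ W ≠ ∞ := ((measure_mono hWC).trans_lt hC.measure_lt_top).ne
  obtain ⟨ζ, hζ⟩ : ∃ ζ : Lp K 2 μ, ζ = indicatorConstLp 2 hWm hWf (T.ι 1) := ⟨_, rfl⟩
  have hζae : (ζ : G → K) =ᵐ[μ] W.indicator fun _ => T.ι 1 := by
    rw [hζ]
    exact indicatorConstLp_coeFn
  have hζf : ζ ∈ fixL μ K N.subtype := by
    intro k
    apply Lp.ext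
    filter_upwards [lam_ae μ (N.subtype k) ζ, ae_translate μ (N.subtype k)⁻¹ hζae, hζae]
      with x k1 k2 k3
    rw [k1, k2, k3]
    have h3 := hWN (N.subtype k)⁻¹ (N.inv_mem k.2) x
    by_cases hx : x ∈ W
    · rw [Set.indicator_of_mem (h3.2 hx), Set.indicator_of_mem hx]
    · rw [Set.indicator_of_notMem (fun h => hx (h3.1 h)), Set.indicator_of_notMem hx]
  have h3 := hc ζ hζf
  have h4 : ∀ᵐ x ∂μ, x ∉ W := by
    filter_upwards [Lp.coeFn_smul c (S.pi μ w ((lam μ K).U g ζ)), S.pi_ae μ w ((lam μ K).U g ζ),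
      lam_ae μ g ζ, ae_translate μ g⁻¹ hζae, hζae] with x k1 k2 k3 k4 k5 hx
    rw [h3] at k1
    rw [Pi.smul_apply, k2, k3, k4, k5, Set.indicator_of_mem hx,
      Set.indicator_of_notMem (hWg x hx), map_zero, smul_zero] at k1
    have h5 := T.norm_one
    rw [k1, norm_zero] at h5
    exact zero_ne_one h5
  have h5 : μ W = 0 := by
    have := ae_iff.1 h4
    simpa using this
  exact (hWo.measure_pos μ ⟨1, hW1⟩).ne' h5

/-- **[F1]** in the form of the descent -/
theorem TrAct.mem_of_fixU_compact [T2Space G] (hSO : S.SO μ Set.univ) (N : Subgroup G)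
    (hN : IsCompact (N : Set G)) {w : A} (h1 : star w * w = 1) (h2 : w * star w = 1) (g : G)
    (hfix : S.FixU N (S.bw h1 h2 g)) : g ∈ N :=
  S.mem_of_fix_compact μ hSO N hN h1 h2 g fun x hx => S.fix_of_fixU N hfix hx

end

end Pool.Agent.AbCoc
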